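import Mathlib
import Pool.Agent.Helper941.Dim.Defs

set_option autoImplicit false

namespace Pool.Agent.Helper941.Dim

open Pool.Agent.Helper941 Pool.Agent.Helper941.IsoProb

theorem sig_iff (n : ℕ) : ∀ {α : Type} [Primcodable α] (P : α → Prop),
    Sig n P ↔ Sigma0 n P := by
  induction n with
  | zero => intro α _ P; exact Iff.rfl
  | succ n ih =>
    intro α _ P
    constructor
    · rintro ⟨Q, hQ, h⟩
      exact ⟨Q, (ih Q).1 hQ, h⟩
    · rintro ⟨Q, hQ, h⟩
      exact ⟨Q, (ih Q).2 hQ, h⟩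

theorem del_iff (n : ℕ) {α : Type} [Primcodable α] (P : α → Prop) :
    Del n P ↔ Delta0 n P := and_congr (sig_iff n P) (sig_iff n _)

end Pool.Agent.Helper941.Dim
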