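import Mathlib
import Pool.Agent.Helper941.Dim.Tr

set_option autoImplicit false

namespace Pool.Agent.Helper941.Dim

open Encodable Denumerable Nat.Partrec Pool.Agent.Helper941 Pool.Agent.Helper941.IsoProb
open Pool.Agent.Helper941.Zeta

/-- the data produced by the construction: outcomes, responses, labels and parents -/
structure Dat where
  O : ℕ → ℕ → ℕ
  C : ℕ → ℕ → ℕ
  J : ℕ → ℕ
  pa : ℕ → ℕ

/-- the guesses at the stages `s` and `s'` agree below the level `e` -/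
def agr (d : Dat) (s s' e : ℕ) : Prop := ∀ i < e, d.O s i = d.O s' i

/-- the guess at stage `s'` is to the left of the guess of stage `s` of length `e` -/
def lft (d : Dat) (s' s e : ℕ) : Prop := ∃ i < e, agr d s' s i ∧ d.O s' i < d.O s i

/-- the node `v` has not been cancelled up to stage `s` -/
def live (d : Dat) (v s : ℕ) : Prop := ∀ s' < s + 1, v < s' → ¬ lft d s' v (d.J v - 1)

/-- `v` is the current node with label `j` -/
def on (d : Dat) (v s j : ℕ) : Prop := d.J v = j + 1 ∧ agr d v s j ∧ live d v s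

def ses (d : Dat) (s' s e : ℕ) : Prop := agr d s' s e ∧ ∀ s'' < s, s' < s'' → ¬ lft d s'' s e

/-- `s'` is the last response before `s` -/
def prevr (d : Dat) (s' s e : ℕ) : Prop :=
  ¬ d.C s' e = 0 ∧ ses d s' s e ∧ ∀ s'' < s, s' < s'' → agr d s'' s e → d.C s'' e = 0

/-- the fact `R_i(x, y)` is enumerated into the `e`-th structure by stage `s` -/
def Fa (e s i x y : ℕ) : Prop := haltsIn (ofNat Code e) (Nat.pair i (Nat.pair x y)) s = true

def Zc (c v u : ℕ) : ℕ := ent c.unpair.2 (Nat.pair v u)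

def yv (c v : ℕ) : ℕ := Zc c v c.unpair.1

def CertA (d : Dat) (T : ℕ → Prop) (s e c : ℕ) : Prop :=
  c.unpair.1 ≤ s ∧ ∀ j < e + 1, T j → ∃ v < c.unpair.1, on d v s j

def CertB (d : Dat) (s e c : ℕ) : Prop :=
  (∀ v < c.unpair.1, Fa e s (Nat.pair 1 v) (yv c v) (yv c v)) ∧
  ∀ u < c.unpair.1, 1 ≤ u → Fa e s (Nat.pair 3 u) (yv c (d.pa u)) (yv c u)

def CertC (d : Dat) (s e c : ℕ) : Prop :=
  ∀ s' < s, prevr d s' s e → s' < c.unpair.1 ∧ ∀ v < (d.C s' e - 1).unpair.1,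
    Zc c v 0 = yv (d.C s' e - 1) v ∧ ∀ u < c.unpair.1, Zc c v (u + 1) = Zc c v u ∨
      (1 ≤ u ∧ d.pa u = v ∧ Fa e s (Nat.pair 2 u) (Zc c v u) (Zc c v (u + 1)))

/-- `c` is a certificate for a response of the `e`-th structure -/
def Cert (d : Dat) (T : ℕ → Prop) (s e c : ℕ) : Prop :=
  CertA d T s e c ∧ CertB d s e c ∧ CertC d s e c

/-- the response `c` involves a change on the nodes below the outcome `1` -/
def Ev (d : Dat) (s e c : ℕ) : Prop :=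
  ∃ s' < s, prevr d s' s e ∧ ∃ v < s' + 1, 1 ≤ v ∧ e + 1 < d.J v ∧ agr d v s e ∧ d.O v e = 1 ∧
    d.pa v < (d.C s' e - 1).unpair.1 ∧ ¬ Zc c (d.pa v) (v + 1) = Zc c (d.pa v) v

/-- the label `j` has no current node -/
def Miss (d : Dat) (T : ℕ → Prop) (s j : ℕ) : Prop := T j ∧ ¬ ∃ v < s, on d v s j

/-- agreement of data up to level `e` of stage `s` -/
structure DEq (d d' : Dat) (s e : ℕ) : Prop where
  O : ∀ s' < s, ∀ i, d.O s' i = d'.O s' i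
  C : ∀ s' < s, ∀ i, d.C s' i = d'.C s' i
  J : ∀ s' < s, d.J s' = d'.J s'
  pa : ∀ s' < s, d.pa s' = d'.pa s'
  cur : ∀ i < e, d.O s i = d'.O s i

variable {d d' : Dat} {s e : ℕ}

theorem DEq.symm (h : DEq d d' s e) : DEq d' d s e :=
  ⟨fun s' h1 i => (h.O s' h1 i).symm, fun s' h1 i => (h.C s' h1 i).symm,
    fun s' h1 => (h.J s' h1).symm, fun s' h1 => (h.pa s' h1).symm, fun i h1 => (h.cur i h1).symm⟩

theorem DEq.mono (h : DEq d d' s e) {e' : ℕ} (he : e' ≤ e) : DEq d d' s e' :=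
  ⟨h.O, h.C, h.J, h.pa, fun i hi => h.cur i (by omega)⟩

theorem DEq.Ole (h : DEq d d' s e) {s' i : ℕ} (hs : s' ≤ s) (hi : i < e) :
    d.O s' i = d'.O s' i := by
  rcases Nat.lt_or_ge s' s with h1 | h1
  · exact h.O s' h1 i
  · have : s' = s := by omega
    subst this
    exact h.cur i hi

theorem DEq.agr (h : DEq d d' s e) {a b i : ℕ} (ha : a ≤ s) (hb : b ≤ s) (hi : i ≤ e)
    (hh : agr d a b i) : agr d' a b i := by
  intro k hk
  rw [← h.Ole ha (by omega), ← h.Ole hb (by omega)]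
  exact hh k hk

theorem DEq.lft (h : DEq d d' s e) {a b i : ℕ} (ha : a ≤ s) (hb : b ≤ s) (hi : i ≤ e)
    (hh : lft d a b i) : lft d' a b i := by
  obtain ⟨k, hk, h1, h2⟩ := hh
  refine ⟨k, hk, h.agr ha hb (by omega) h1, ?_⟩
  rw [← h.Ole ha (by omega), ← h.Ole hb (by omega)]
  exact h2

theorem DEq.on (h : DEq d d' s e) {v j : ℕ} (hv : v < s) (hj : j ≤ e)
    (hh : on d v s j) : on d' v s j := by
  obtain ⟨h1, h2, h3⟩ := hh
  refine ⟨by rw [← h.J v hv]; exact h1, h.agr (le_of_lt hv) (le_refl s) hj h2, ?_⟩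
  intro s' hs' hvs hl
  refine h3 s' hs' hvs ?_
  rw [h1]
  rw [← h.J v hv, h1] at hl
  exact h.symm.lft (by omega) (le_of_lt hv) (by omega) hl

theorem DEq.prevr (h : DEq d d' s e) {s' : ℕ} (hs : s' < s) (hh : prevr d s' s e) :
    prevr d' s' s e := by
  obtain ⟨h1, ⟨h2, h3⟩, h4⟩ := hh
  refine ⟨by rw [← h.C s' hs]; exact h1, ⟨h.agr (le_of_lt hs) (le_refl s) (le_refl e) h2, ?_⟩, ?_⟩
  · intro s'' h5 h6 h7
    exact h3 s'' h5 h6 (h.symm.lft (by omega) (le_refl s) (le_refl e) h7)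
  · intro s'' h5 h6 h7
    rw [← h.C s'' h5]
    exact h4 s'' h5 h6 (h.symm.agr (by omega) (le_refl s) (le_refl e) h7)

theorem DEq.certA (h : DEq d d' s e) {T : ℕ → Prop} {c : ℕ} (hh : CertA d T s e c) :
    CertA d' T s e c := by
  obtain ⟨h1, h2⟩ := hh
  refine ⟨h1, fun j hj hT => ?_⟩
  obtain ⟨v, hv, h3⟩ := h2 j hj hT
  exact ⟨v, hv, h.on (by omega) (by omega) h3⟩

theorem DEq.certB (h : DEq d d' s e) {c : ℕ} (hc : c.unpair.1 ≤ s) (hh : CertB d s e c) :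
    CertB d' s e c := by
  obtain ⟨h1, h2⟩ := hh
  refine ⟨h1, fun u hu h3 => ?_⟩
  rw [← h.pa u (by omega)]
  exact h2 u hu h3

theorem DEq.certC (h : DEq d d' s e) {c : ℕ} (hc : c.unpair.1 ≤ s) (hh : CertC d s e c) :
    CertC d' s e c := by
  intro s' hs' h1
  obtain ⟨h2, h3⟩ := hh s' hs' (h.symm.prevr hs' h1)
  refine ⟨h2, fun v hv => ?_⟩
  rw [← h.C s' hs'] at hv ⊢
  obtain ⟨h4, h5⟩ := h3 v hv
  refine ⟨h4, fun u hu => ?_⟩
  rw [← h.pa u (by omega)]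
  exact h5 u hu

theorem DEq.cert (h : DEq d d' s e) {T : ℕ → Prop} {c : ℕ} :
    Cert d T s e c ↔ Cert d' T s e c :=
  ⟨fun hh => ⟨h.certA hh.1, h.certB hh.1.1 hh.2.1, h.certC hh.1.1 hh.2.2⟩,
    fun hh => ⟨h.symm.certA hh.1, h.symm.certB hh.1.1 hh.2.1, h.symm.certC hh.1.1 hh.2.2⟩⟩

theorem DEq.ev' (h : DEq d d' s e) {c : ℕ} (hh : Ev d s e c) : Ev d' s e c := by
  obtain ⟨s', hs', h1, v, hv, h2, h3, h4, h5, h6, h7⟩ := hh
  refine ⟨s', hs', h.prevr hs' h1, v, hv, h2, ?_, ?_, ?_, ?_, ?_⟩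
  · rw [← h.J v (by omega)]; exact h3
  · exact h.agr (by omega) (le_refl s) (le_refl e) h4
  · rw [← h.O v (by omega)]; exact h5
  · rw [← h.pa v (by omega), ← h.C s' hs']; exact h6
  · rw [← h.pa v (by omega)]; exact h7

theorem DEq.ev (h : DEq d d' s e) {c : ℕ} : Ev d s e c ↔ Ev d' s e c :=
  ⟨h.ev', h.symm.ev'⟩

theorem DEq.miss' (h : DEq d d' s e) {T : ℕ → Prop} {j : ℕ} (hj : j ≤ e)
    (hh : Miss d T s j) : Miss d' T s j :=
  ⟨hh.1, fun ⟨v, hv, h1⟩ => hh.2 ⟨v, hv, h.symm.on hv hj h1⟩⟩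

theorem DEq.miss (h : DEq d d' s e) {T : ℕ → Prop} {j : ℕ} (hj : j ≤ e) :
    Miss d T s j ↔ Miss d' T s j :=
  ⟨h.miss' hj, h.symm.miss' hj⟩

/-- the specification of the construction -/
structure Spec (T : ℕ → Prop) (pr : ℕ → ℕ) (d : Dat) : Prop where
  yes : ∀ s e, e < s → (∃ c < s, Cert d T s e c) → ∃ c < s, Cert d T s e c ∧ d.C s e = c + 1 ∧
    ((Ev d s e c ∧ d.O s e = 0) ∨ (¬ Ev d s e c ∧ d.O s e = 1))
  no : ∀ s e, ¬ (e < s ∧ ∃ c < s, Cert d T s e c) → d.C s e = 0 ∧ d.O s e = 2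
  zero : d.J 0 = 1 ∧ d.pa 0 = 0
  succ : ∀ s, 1 ≤ s → (∃ j, Miss d T s j ∧ j ≤ s ∧ (∀ j' < j, ¬ Miss d T s j') ∧
      d.J s = j + 1 ∧ (T (pr j) → pr j < j → d.pa s < s ∧ on d (d.pa s) s (pr j))) ∨
    ((∀ j ≤ s, ¬ Miss d T s j) ∧ d.J s = 0 ∧ d.pa s = 0)

end Pool.Agent.Helper941.Dim
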