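import Mathlib
import Pool.Agent.Helper941.Dim.Cons

set_option autoImplicit false

namespace Pool.Agent.Helper941.Dim

open Encodable Denumerable Nat.Partrec Pool.Agent.Helper941 Pool.Agent.Helper941.IsoProb
open Pool.Agent.Helper941.Zeta

def getc (H : List ℕ) (s : ℕ) : ℕ := (H[s]?).getD 0
def dO (m e : ℕ) : ℕ := 2 - (ent m.unpair.2.unpair.2 e).unpair.1
def dC (m e : ℕ) : ℕ := (ent m.unpair.2.unpair.2 e).unpair.2
def dJ (m : ℕ) : ℕ := m.unpair.1
def dP (m : ℕ) : ℕ := m.unpair.2.unpair.1

/-- the data coded by a sequence of numbers -/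
def dof (h : ℕ → ℕ) : Dat where
  O s e := dO (h s) e
  C s e := dC (h s) e
  J s := dJ (h s)
  pa s := dP (h s)

variable {α : Type} [Primcodable α] {G : α → List ℕ}

theorem c_getc {s : α → ℕ} (hG : Computable G) (hs : Computable s) :
    Computable fun a => getc (G a) (s a) := by
  unfold getc
  exact (Primrec.option_getD.to_comp).comp (Computable.list_getElem?.comp hG hs)
    (Computable.const 0)

theorem c_O {s e : α → ℕ} (hG : Computable G) (hs : Computable s) (he : Computable e) :
    Computable fun a => (dof (getc (G a))).O (s a) (e a) :=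
  c_sub (c_const 2) (c_up1 (c_ent (c_up2 (c_up2 (c_getc hG hs))) he))

theorem c_C {s e : α → ℕ} (hG : Computable G) (hs : Computable s) (he : Computable e) :
    Computable fun a => (dof (getc (G a))).C (s a) (e a) :=
  c_up2 (c_ent (c_up2 (c_up2 (c_getc hG hs))) he)

theorem c_J {s : α → ℕ} (hG : Computable G) (hs : Computable s) :
    Computable fun a => (dof (getc (G a))).J (s a) :=
  c_up1 (c_getc hG hs)

theorem c_pa {s : α → ℕ} (hG : Computable G) (hs : Computable s) :
    Computable fun a => (dof (getc (G a))).pa (s a) :=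
  c_up1 (c_up2 (c_getc hG hs))

theorem c_l {β : Type} [Primcodable β] {f : α → β} (hf : Computable f) :
    Computable fun p : α × ℕ => f p.1 := hf.comp (c_fst c_id)

theorem c_r : Computable fun p : α × ℕ => p.2 := c_snd c_id

theorem p_agr {s s' e : α → ℕ} (hG : Computable G) (hs : Computable s) (hs' : Computable s')
    (he : Computable e) : ComputablePred fun a => agr (dof (getc (G a))) (s a) (s' a) (e a) := by
  unfold agr
  exact p_ball he (p_eq (c_O (c_l hG) (c_l hs) c_r) (c_O (c_l hG) (c_l hs') c_r))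

theorem p_lft {s s' e : α → ℕ} (hG : Computable G) (hs : Computable s) (hs' : Computable s')
    (he : Computable e) : ComputablePred fun a => lft (dof (getc (G a))) (s a) (s' a) (e a) := by
  unfold lft
  exact p_bex he (p_and (p_agr (c_l hG) (c_l hs) (c_l hs') c_r)
    (p_lt (c_O (c_l hG) (c_l hs) c_r) (c_O (c_l hG) (c_l hs') c_r)))

theorem p_live {v s : α → ℕ} (hG : Computable G) (hv : Computable v) (hs : Computable s) :
    ComputablePred fun a => live (dof (getc (G a))) (v a) (s a) := by
  unfold live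
  exact p_ball (c_succ hs) (p_imp (p_lt (c_l hv) c_r) (p_not (p_lft (c_l hG) c_r (c_l hv)
    (c_sub (c_J (c_l hG) (c_l hv)) (c_const 1)))))

theorem p_on {v s j : α → ℕ} (hG : Computable G) (hv : Computable v) (hs : Computable s)
    (hj : Computable j) : ComputablePred fun a => on (dof (getc (G a))) (v a) (s a) (j a) := by
  unfold on
  exact p_and (p_eq (c_J hG hv) (c_succ hj)) (p_and (p_agr hG hv hs hj) (p_live hG hv hs))

theorem p_ses {s' s e : α → ℕ} (hG : Computable G) (hs' : Computable s') (hs : Computable s)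
    (he : Computable e) : ComputablePred fun a => ses (dof (getc (G a))) (s' a) (s a) (e a) := by
  unfold ses
  exact p_and (p_agr hG hs' hs he) (p_ball hs (p_imp (p_lt (c_l hs') c_r)
    (p_not (p_lft (c_l hG) c_r (c_l hs) (c_l he)))))

theorem p_prevr {s' s e : α → ℕ} (hG : Computable G) (hs' : Computable s') (hs : Computable s)
    (he : Computable e) :
    ComputablePred fun a => prevr (dof (getc (G a))) (s' a) (s a) (e a) := by
  unfold prevr
  exact p_and (p_not (p_eq (c_C hG hs' he) (c_const 0))) (p_and (p_ses hG hs' hs he)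
    (p_ball hs (p_imp (p_lt (c_l hs') c_r) (p_imp (p_agr (c_l hG) c_r (c_l hs) (c_l he))
      (p_eq (c_C (c_l hG) c_r (c_l he)) (c_const 0))))))

theorem p_Fa {e s i x y : α → ℕ} (he : Computable e) (hs : Computable s) (hi : Computable i)
    (hx : Computable x) (hy : Computable y) :
    ComputablePred fun a => Fa (e a) (s a) (i a) (x a) (y a) := by
  unfold Fa
  have h : Computable fun q : ℕ × ℕ × ℕ => haltsIn (ofNat Code q.1) q.2.1 q.2.2 :=
    (primrec_haltsIn ((Primrec.ofNat Code).comp Primrec.fst) (Primrec.fst.comp Primrec.snd)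
      (Primrec.snd.comp Primrec.snd)).to_comp
  exact p_of_bool (h.comp (c_pair he (c_pair (c_npair hi (c_npair hx hy)) hs)))

theorem c_Zc {c v u : α → ℕ} (hc : Computable c) (hv : Computable v) (hu : Computable u) :
    Computable fun a => Zc (c a) (v a) (u a) := c_ent (c_up2 hc) (c_npair hv hu)

theorem c_yv {c v : α → ℕ} (hc : Computable c) (hv : Computable v) :
    Computable fun a => yv (c a) (v a) := c_Zc hc hv (c_up1 hc)

theorem p_certA {T : ℕ → Prop} (hT : ComputablePred T) {s e c : α → ℕ} (hG : Computable G)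
    (hs : Computable s) (he : Computable e) (hc : Computable c) :
    ComputablePred fun a => CertA (dof (getc (G a))) T (s a) (e a) (c a) := by
  unfold CertA
  refine p_and (p_le (c_up1 hc) hs) (p_ball (c_succ he) (p_imp (computablePred_comp hT c_r)
    (p_bex (c_up1 (c_l hc)) (p_on (c_l (c_l hG)) c_r (c_l (c_l hs)) (c_l c_r)))))

theorem p_certB {s e c : α → ℕ} (hG : Computable G)
    (hs : Computable s) (he : Computable e) (hc : Computable c) :
    ComputablePred fun a => CertB (dof (getc (G a))) (s a) (e a) (c a) := by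
  unfold CertB
  refine p_and (p_ball (c_up1 hc) (p_Fa (c_l he) (c_l hs) (c_npair (c_const 1) c_r)
    (c_yv (c_l hc) c_r) (c_yv (c_l hc) c_r))) (p_ball (c_up1 hc) (p_imp (p_le (c_const 1) c_r)
    (p_Fa (c_l he) (c_l hs) (c_npair (c_const 3) c_r) (c_yv (c_l hc) (c_pa (c_l hG) c_r))
    (c_yv (c_l hc) c_r))))

theorem p_step {s e c v u : α → ℕ} (hG : Computable G) (hs : Computable s) (he : Computable e)
    (hc : Computable c) (hv : Computable v) (hu : Computable u) :
    ComputablePred fun a => Zc (c a) (v a) (u a + 1) = Zc (c a) (v a) (u a) ∨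
      (1 ≤ u a ∧ (dof (getc (G a))).pa (u a) = v a ∧ Fa (e a) (s a) (Nat.pair 2 (u a))
        (Zc (c a) (v a) (u a)) (Zc (c a) (v a) (u a + 1))) := by
  have z0 : Computable fun a => Zc (c a) (v a) (u a) := c_Zc hc hv hu
  have z1 : Computable fun a => Zc (c a) (v a) (u a + 1) := c_Zc hc hv (c_succ hu)
  exact p_or (p_eq z1 z0) (p_and (p_le (c_const 1) hu) (p_and (p_eq (c_pa hG hu) hv)
    (p_Fa he hs (c_npair (c_const 2) hu) z0 z1)))

theorem p_steps {s e c v : α → ℕ} (hG : Computable G) (hs : Computable s) (he : Computable e)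
    (hc : Computable c) (hv : Computable v) :
    ComputablePred fun a => ∀ u < (c a).unpair.1, Zc (c a) (v a) (u + 1) = Zc (c a) (v a) u ∨
      (1 ≤ u ∧ (dof (getc (G a))).pa u = v a ∧ Fa (e a) (s a) (Nat.pair 2 u)
        (Zc (c a) (v a) u) (Zc (c a) (v a) (u + 1))) :=
  p_ball (c_up1 hc) (p_step (c_l hG) (c_l hs) (c_l he) (c_l hc) (c_l hv) c_r)

theorem p_mid {s e c c' : α → ℕ} (hG : Computable G) (hs : Computable s) (he : Computable e)
    (hc : Computable c) (hc' : Computable c') :
    ComputablePred fun a => ∀ v < (c' a).unpair.1, Zc (c a) v 0 = yv (c' a) v ∧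
      ∀ u < (c a).unpair.1, Zc (c a) v (u + 1) = Zc (c a) v u ∨
      (1 ≤ u ∧ (dof (getc (G a))).pa u = v ∧ Fa (e a) (s a) (Nat.pair 2 u)
        (Zc (c a) v u) (Zc (c a) v (u + 1))) := by
  have h1 : ComputablePred fun p : α × ℕ => Zc (c p.1) p.2 0 = yv (c' p.1) p.2 :=
    p_eq (c_Zc (c_l hc) c_r (c_const 0)) (c_yv (c_l hc') c_r)
  have h2 := p_steps (α := α × ℕ) (c_l hG) (c_l hs) (c_l he) (c_l hc) c_r
  exact p_ball (c_up1 hc') (p_and h1 h2)

theorem p_certC {s e c : α → ℕ} (hG : Computable G)
    (hs : Computable s) (he : Computable e) (hc : Computable c) :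
    ComputablePred fun a => CertC (dof (getc (G a))) (s a) (e a) (c a) := by
  unfold CertC
  have c1 : Computable fun p : α × ℕ => (dof (getc (G p.1))).C p.2 (e p.1) - 1 :=
    c_sub (c_C (c_l hG) c_r (c_l he)) (c_const 1)
  have h1 := p_prevr (α := α × ℕ) (c_l hG) c_r (c_l hs) (c_l he)
  have h2 : ComputablePred fun p : α × ℕ => p.2 < (c p.1).unpair.1 :=
    p_lt c_r (c_up1 (c_l hc))
  have h3 := p_mid (α := α × ℕ) (c_l hG) (c_l hs) (c_l he) (c_l hc) c1
  exact p_ball hs (p_imp h1 (p_and h2 h3))

theorem p_cert {T : ℕ → Prop} (hT : ComputablePred T) {s e c : α → ℕ} (hG : Computable G)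
    (hs : Computable s) (he : Computable e) (hc : Computable c) :
    ComputablePred fun a => Cert (dof (getc (G a))) T (s a) (e a) (c a) := by
  unfold Cert
  exact p_and (p_certA hT hG hs he hc) (p_and (p_certB hG hs he hc) (p_certC hG hs he hc))

theorem p_evin {s e c s' v : α → ℕ} (hG : Computable G) (hs : Computable s) (he : Computable e)
    (hc : Computable c) (hs' : Computable s') (hv : Computable v) :
    ComputablePred fun a => 1 ≤ v a ∧ e a + 1 < (dof (getc (G a))).J (v a) ∧
      agr (dof (getc (G a))) (v a) (s a) (e a) ∧ (dof (getc (G a))).O (v a) (e a) = 1 ∧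
      (dof (getc (G a))).pa (v a) < ((dof (getc (G a))).C (s' a) (e a) - 1).unpair.1 ∧
      ¬ Zc (c a) ((dof (getc (G a))).pa (v a)) (v a + 1) =
        Zc (c a) ((dof (getc (G a))).pa (v a)) (v a) := by
  have cp : Computable fun a => (dof (getc (G a))).pa (v a) := c_pa hG hv
  have h1 : ComputablePred fun a => e a + 1 < (dof (getc (G a))).J (v a) :=
    p_lt (c_succ he) (c_J hG hv)
  have h2 := p_agr hG hv hs he
  have h3 : ComputablePred fun a => (dof (getc (G a))).O (v a) (e a) = 1 :=
    p_eq (c_O hG hv he) (c_const 1)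
  have h4 : ComputablePred fun a => (dof (getc (G a))).pa (v a) <
      ((dof (getc (G a))).C (s' a) (e a) - 1).unpair.1 :=
    p_lt cp (c_up1 (c_sub (c_C hG hs' he) (c_const 1)))
  have h5 : ComputablePred fun a => ¬ Zc (c a) ((dof (getc (G a))).pa (v a)) (v a + 1) =
        Zc (c a) ((dof (getc (G a))).pa (v a)) (v a) :=
    p_not (p_eq (c_Zc hc cp (c_succ hv)) (c_Zc hc cp hv))
  exact p_and (p_le (c_const 1) hv) (p_and h1 (p_and h2 (p_and h3 (p_and h4 h5))))

theorem p_ev {s e c : α → ℕ} (hG : Computable G)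
    (hs : Computable s) (he : Computable e) (hc : Computable c) :
    ComputablePred fun a => Ev (dof (getc (G a))) (s a) (e a) (c a) := by
  unfold Ev
  have h1 := p_prevr (α := α × ℕ) (c_l hG) c_r (c_l hs) (c_l he)
  have h2 := p_evin (α := (α × ℕ) × ℕ) (c_l (c_l hG)) (c_l (c_l hs)) (c_l (c_l he))
    (c_l (c_l hc)) (c_l c_r) c_r
  exact p_bex hs (p_and h1 (p_bex (c_succ c_r) h2))

theorem p_miss {T : ℕ → Prop} (hT : ComputablePred T) {s j : α → ℕ} (hG : Computable G)
    (hs : Computable s) (hj : Computable j) :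
    ComputablePred fun a => Miss (dof (getc (G a))) T (s a) (j a) := by
  unfold Miss
  exact p_and (computablePred_comp hT hj) (p_not (p_bex hs
    (p_on (c_l hG) c_r (c_l hs) (c_l hj))))

end Pool.Agent.Helper941.Dim
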