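import Mathlib
import Pool.Agent.Helper941.Dim.Comp

set_option autoImplicit false

namespace Pool.Agent.Helper941.Dim

open Encodable Denumerable Nat.Partrec Pool.Agent.Helper941 Pool.Agent.Helper941.IsoProb
open Pool.Agent.Helper941.Zeta

/-- the least number satisfying `P` or equal to `s` -/
noncomputable def lst (s : ℕ) (P : ℕ → Prop) : ℕ := sInf {n | s ≤ n ∨ P n}

theorem lst_mem (s : ℕ) (P : ℕ → Prop) : s ≤ lst s P ∨ P (lst s P) :=
  Nat.sInf_mem (s := {n | s ≤ n ∨ P n}) ⟨s, Or.inl (le_refl s)⟩

theorem lst_not {s : ℕ} {P : ℕ → Prop} {m : ℕ} (h : m < lst s P) : ¬ P m := by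
  intro hm
  have : lst s P ≤ m := Nat.sInf_le (s := {n | s ≤ n ∨ P n}) (Or.inr hm)
  omega

theorem lst_le {s : ℕ} {P : ℕ → Prop} {m : ℕ} (h : P m) : lst s P ≤ m :=
  Nat.sInf_le (s := {n | s ≤ n ∨ P n}) (Or.inr h)

theorem lst_prop {s : ℕ} {P : ℕ → Prop} (h : lst s P < s) : P (lst s P) := by
  rcases lst_mem s P with h1 | h1
  · omega
  · exact h1

variable {α : Type} [Primcodable α]

theorem c_lst {s : α → ℕ} {P : α → ℕ → Prop} (hs : Computable s)
    (hP : ComputablePred fun p : α × ℕ => P p.1 p.2) : Computable fun a => lst (s a) (P a) :=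
  c_least (P := fun a n => s a ≤ n ∨ P a n) (p_or (p_le (c_l hs) c_r) hP)
    fun a => ⟨s a, Or.inl (le_refl _)⟩

/-- auxiliary history with the current row `w` -/
def ext (H w : List ℕ) : List ℕ := H ++ [Nat.pair 0 (Nat.pair 0 (encode w))]

open Classical in
noncomputable def entry (T : ℕ → Prop) (H w : List ℕ) : ℕ :=
  if lst H.length (Cert (dof (getc (ext H w))) T H.length w.length) < H.length ∧
    w.length < H.length then
    (if Ev (dof (getc (ext H w))) H.length w.length
        (lst H.length (Cert (dof (getc (ext H w))) T H.length w.length)) then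
      Nat.pair 2 (lst H.length (Cert (dof (getc (ext H w))) T H.length w.length) + 1)
    else Nat.pair 1 (lst H.length (Cert (dof (getc (ext H w))) T H.length w.length) + 1))
  else 0

noncomputable def row (T : ℕ → Prop) (H : List ℕ) (n : ℕ) : List ℕ :=
  Nat.rec [] (fun _ w => w ++ [entry T H w]) n

theorem row_zero (T : ℕ → Prop) (H : List ℕ) : row T H 0 = [] := rfl

theorem row_succ (T : ℕ → Prop) (H : List ℕ) (n : ℕ) :
    row T H (n + 1) = row T H n ++ [entry T H (row T H n)] := rfl

theorem row_length (T : ℕ → Prop) (H : List ℕ) (n : ℕ) : (row T H n).length = n := by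
  induction n with
  | zero => rfl
  | succ n ih => rw [row_succ, List.length_append, ih]; rfl

theorem row_get (T : ℕ → Prop) (H : List ℕ) {n i : ℕ} (h : i < n) :
    (row T H n)[i]? = some (entry T H (row T H i)) := by
  induction n with
  | zero => omega
  | succ n ih =>
    rw [row_succ]
    by_cases h1 : i < n
    · rw [List.getElem?_append_left (by rw [row_length]; exact h1), ih h1]
    · have : i = n := by omega
      subst this
      rw [List.getElem?_append_right (by rw [row_length])]
      simp [row_length]

open Classical in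
noncomputable def nxt (T : ℕ → Prop) (pr : ℕ → ℕ) (H : List ℕ) : ℕ :=
  if H.length = 0 then Nat.pair 1 (Nat.pair 0 (encode (row T H H.length)))
  else if lst (H.length + 1) (Miss (dof (getc (ext H (row T H H.length)))) T H.length) <
      H.length + 1 then
    Nat.pair (lst (H.length + 1) (Miss (dof (getc (ext H (row T H H.length)))) T H.length) + 1)
      (Nat.pair (lst H.length fun v => on (dof (getc (ext H (row T H H.length)))) v H.length
        (pr (lst (H.length + 1) (Miss (dof (getc (ext H (row T H H.length)))) T H.length))))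
        (encode (row T H H.length)))
  else Nat.pair 0 (Nat.pair 0 (encode (row T H H.length)))

noncomputable def hist (T : ℕ → Prop) (pr : ℕ → ℕ) (n : ℕ) : List ℕ :=
  Nat.rec [] (fun _ H => H ++ [nxt T pr H]) n

theorem hist_succ (T : ℕ → Prop) (pr : ℕ → ℕ) (n : ℕ) :
    hist T pr (n + 1) = hist T pr n ++ [nxt T pr (hist T pr n)] := rfl

theorem hist_length (T : ℕ → Prop) (pr : ℕ → ℕ) (n : ℕ) : (hist T pr n).length = n := by
  induction n with
  | zero => rfl
  | succ n ih => rw [hist_succ, List.length_append, ih]; rfl

theorem hist_get (T : ℕ → Prop) (pr : ℕ → ℕ) {n i : ℕ} (h : i < n) :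
    (hist T pr n)[i]? = some (nxt T pr (hist T pr i)) := by
  induction n with
  | zero => omega
  | succ n ih =>
    rw [hist_succ]
    by_cases h1 : i < n
    · rw [List.getElem?_append_left (by rw [hist_length]; exact h1), ih h1]
    · have : i = n := by omega
      subst this
      rw [List.getElem?_append_right (by rw [hist_length])]
      simp [hist_length]

noncomputable def hh (T : ℕ → Prop) (pr : ℕ → ℕ) (s : ℕ) : ℕ := nxt T pr (hist T pr s)

theorem getc_hist (T : ℕ → Prop) (pr : ℕ → ℕ) {n i : ℕ} (h : i < n) :
    getc (hist T pr n) i = hh T pr i := by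
  unfold getc hh
  rw [hist_get T pr h]
  rfl

/-- the construction -/
noncomputable def con (T : ℕ → Prop) (pr : ℕ → ℕ) : Dat := dof (hh T pr)

/-! ### computability -/

theorem c_ext {G w : α → List ℕ} (hG : Computable G) (hw : Computable w) :
    Computable fun a => ext (G a) (w a) :=
  Computable.list_concat.comp hG (c_npair (c_const 0) (c_npair (c_const 0)
    (Computable.encode.comp hw)))

theorem c_len {G : α → List ℕ} (hG : Computable G) : Computable fun a => (G a).length :=
  Computable.list_length.comp hG

open Classical in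
theorem c_entry {T : ℕ → Prop} (hT : ComputablePred T) {G w : α → List ℕ} (hG : Computable G)
    (hw : Computable w) : Computable fun a => entry T (G a) (w a) := by
  have hE : Computable fun a => ext (G a) (w a) := c_ext hG hw
  have hl : Computable fun a => lst (G a).length
      (Cert (dof (getc (ext (G a) (w a)))) T (G a).length (w a).length) :=
    c_lst (c_len hG) (p_cert (α := α × ℕ) hT (c_l hE) (c_l (c_len hG)) (c_l (c_len hw)) c_r)
  unfold entry
  exact c_ite (p_and (p_lt hl (c_len hG)) (p_lt (c_len hw) (c_len hG)))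
    (c_ite (p_ev hE (c_len hG) (c_len hw) hl) (c_npair (c_const 2) (c_succ hl))
      (c_npair (c_const 1) (c_succ hl))) (c_const 0)

theorem c_row {T : ℕ → Prop} (hT : ComputablePred T) {G : α → List ℕ} {n : α → ℕ}
    (hG : Computable G) (hn : Computable n) : Computable fun a => row T (G a) (n a) := by
  unfold row
  refine Computable.nat_rec (f := n) (g := fun _ => ([] : List ℕ))
    (h := fun (a : α) (q : ℕ × List ℕ) => q.2 ++ [entry T (G a) q.2]) hn (c_const []) ?_
  have h1 : Computable fun p : α × ℕ × List ℕ => p.2.2 := c_snd (c_snd c_id)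
  have h2 : Computable fun p : α × ℕ × List ℕ => G p.1 := hG.comp (c_fst c_id)
  exact Computable.list_concat.comp h1 (c_entry hT h2 h1)

open Classical in
theorem c_nxt {T : ℕ → Prop} (hT : ComputablePred T) {pr : ℕ → ℕ} (hpr : Computable pr)
    {G : α → List ℕ} (hG : Computable G) : Computable fun a => nxt T pr (G a) := by
  have hr : Computable fun a => row T (G a) (G a).length := c_row hT hG (c_len hG)
  have hE : Computable fun a => ext (G a) (row T (G a) (G a).length) := c_ext hG hr
  have hj : Computable fun a => lst ((G a).length + 1)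
      (Miss (dof (getc (ext (G a) (row T (G a) (G a).length)))) T (G a).length) :=
    c_lst (c_succ (c_len hG)) (p_miss (α := α × ℕ) hT (c_l hE) (c_l (c_len hG)) c_r)
  have hp : Computable fun a => lst (G a).length
      fun v => on (dof (getc (ext (G a) (row T (G a) (G a).length)))) v (G a).length
        (pr (lst ((G a).length + 1)
      (Miss (dof (getc (ext (G a) (row T (G a) (G a).length)))) T (G a).length))) :=
    c_lst (c_len hG) (p_on (α := α × ℕ) (c_l hE) c_r (c_l (c_len hG)) (c_l (hpr.comp hj)))
  have he : Computable fun a => encode (row T (G a) (G a).length) := Computable.encode.comp hr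
  unfold nxt
  exact c_ite (p_eq (c_len hG) (c_const 0)) (c_npair (c_const 1) (c_npair (c_const 0) he))
    (c_ite (p_lt hj (c_succ (c_len hG))) (c_npair (c_succ hj) (c_npair hp he))
      (c_npair (c_const 0) (c_npair (c_const 0) he)))

theorem c_hist {T : ℕ → Prop} (hT : ComputablePred T) {pr : ℕ → ℕ} (hpr : Computable pr) :
    Computable (hist T pr) := by
  unfold hist
  refine Computable.nat_rec (f := fun n : ℕ => n) (g := fun _ => ([] : List ℕ))
    (h := fun (_ : ℕ) (q : ℕ × List ℕ) => q.2 ++ [nxt T pr q.2]) c_id (c_const []) ?_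
  have h1 : Computable fun p : ℕ × ℕ × List ℕ => p.2.2 := c_snd (c_snd c_id)
  exact Computable.list_concat.comp h1 (c_nxt hT hpr h1)

theorem c_hh {T : ℕ → Prop} (hT : ComputablePred T) {pr : ℕ → ℕ} (hpr : Computable pr) :
    Computable (hh T pr) := c_nxt hT hpr (c_hist hT hpr)

theorem con_O {T : ℕ → Prop} (hT : ComputablePred T) {pr : ℕ → ℕ} (hpr : Computable pr)
    {s e : α → ℕ} (hs : Computable s) (he : Computable e) :
    Computable fun a => (con T pr).O (s a) (e a) :=
  c_sub (c_const 2) (c_up1 (c_ent (c_up2 (c_up2 ((c_hh hT hpr).comp hs))) he))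

theorem con_C {T : ℕ → Prop} (hT : ComputablePred T) {pr : ℕ → ℕ} (hpr : Computable pr)
    {s e : α → ℕ} (hs : Computable s) (he : Computable e) :
    Computable fun a => (con T pr).C (s a) (e a) :=
  c_up2 (c_ent (c_up2 (c_up2 ((c_hh hT hpr).comp hs))) he)

theorem con_J {T : ℕ → Prop} (hT : ComputablePred T) {pr : ℕ → ℕ} (hpr : Computable pr)
    {s : α → ℕ} (hs : Computable s) : Computable fun a => (con T pr).J (s a) :=
  c_up1 ((c_hh hT hpr).comp hs)

theorem con_pa {T : ℕ → Prop} (hT : ComputablePred T) {pr : ℕ → ℕ} (hpr : Computable pr) :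
    Computable (con T pr).pa :=
  c_up1 (c_up2 (c_hh hT hpr))

/-! ### the specification -/

theorem hh_row (T : ℕ → Prop) (pr : ℕ → ℕ) (s : ℕ) :
    (hh T pr s).unpair.2.unpair.2 = encode (row T (hist T pr s) s) := by
  unfold hh nxt
  rw [hist_length]
  split_ifs <;> simp

theorem con_ent (T : ℕ → Prop) (pr : ℕ → ℕ) {s e : ℕ} (h : e < s) :
    ent (hh T pr s).unpair.2.unpair.2 e = entry T (hist T pr s) (row T (hist T pr s) e) := by
  unfold ent
  rw [hh_row, ofNat_encode, row_get T _ h]
  rfl

theorem con_ent' (T : ℕ → Prop) (pr : ℕ → ℕ) {s e : ℕ} (h : s ≤ e) :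
    ent (hh T pr s).unpair.2.unpair.2 e = 0 := by
  unfold ent
  rw [hh_row, ofNat_encode, List.getElem?_eq_none (by rw [row_length]; exact h)]
  rfl

theorem getc_ext (T : ℕ → Prop) (pr : ℕ → ℕ) {s s' : ℕ} (h : s' < s) (w : List ℕ) :
    getc (ext (hist T pr s) w) s' = hh T pr s' := by
  rw [← getc_hist T pr h]
  unfold getc ext
  rw [List.getElem?_append_left (by rw [hist_length]; exact h)]

theorem getc_ext' (T : ℕ → Prop) (pr : ℕ → ℕ) (s : ℕ) (w : List ℕ) :
    getc (ext (hist T pr s) w) s = Nat.pair 0 (Nat.pair 0 (encode w)) := by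
  unfold getc ext
  rw [List.getElem?_append_right (by rw [hist_length]), hist_length]
  simp

open Classical in
theorem entry_eq (T : ℕ → Prop) {H w : List ℕ} {s e : ℕ} (h1 : H.length = s)
    (h2 : w.length = e) : entry T H w =
    if lst s (Cert (dof (getc (ext H w))) T s e) < s ∧ e < s then
    (if Ev (dof (getc (ext H w))) s e (lst s (Cert (dof (getc (ext H w))) T s e)) then
      Nat.pair 2 (lst s (Cert (dof (getc (ext H w))) T s e) + 1)
    else Nat.pair 1 (lst s (Cert (dof (getc (ext H w))) T s e) + 1)) else 0 := by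
  subst h1 h2
  rfl

theorem deq_con (T : ℕ → Prop) (pr : ℕ → ℕ) {s e : ℕ} (he : e ≤ s) :
    DEq (dof (getc (ext (hist T pr s) (row T (hist T pr s) e)))) (con T pr) s e where
  O := fun s' hs' i => by
    show dO (getc _ s') i = dO (hh T pr s') i
    rw [getc_ext T pr hs']
  C := fun s' hs' i => by
    show dC (getc _ s') i = dC (hh T pr s') i
    rw [getc_ext T pr hs']
  J := fun s' hs' => by
    show dJ (getc _ s') = dJ (hh T pr s')
    rw [getc_ext T pr hs']
  pa := fun s' hs' => by
    show dP (getc _ s') = dP (hh T pr s')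
    rw [getc_ext T pr hs']
  cur := fun i hi => by
    show dO (getc _ s) i = dO (hh T pr s) i
    rw [getc_ext']
    unfold dO
    rw [con_ent T pr (by omega : i < s)]
    simp only [Nat.unpair_pair]
    unfold ent
    rw [ofNat_encode, row_get T _ hi]
    rfl

theorem con_spec (T : ℕ → Prop) (pr : ℕ → ℕ) : Spec T pr (con T pr) where
  yes := by
    intro s e hes ⟨c0, hc0, hC0⟩
    have hd := deq_con T pr (show e ≤ s by omega)
    set P := Cert (dof (getc (ext (hist T pr s) (row T (hist T pr s) e)))) T s e with hP
    have h0 : P c0 := hd.cert.2 hC0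
    have hlt : lst s P < s := lt_of_le_of_lt (lst_le h0) hc0
    have hm : P (lst s P) := lst_prop hlt
    have hm' : Cert (con T pr) T s e (lst s P) := hd.cert.1 hm
    have hent : ent (hh T pr s).unpair.2.unpair.2 e =
        entry T (hist T pr s) (row T (hist T pr s) e) := con_ent T pr hes
    refine ⟨lst s P, hlt, hm', ?_⟩
    rw [entry_eq T (hist_length T pr s) (row_length T _ e), if_pos ⟨hlt, hes⟩] at hent
    by_cases hE : Ev (con T pr) s e (lst s P)
    · rw [if_pos (hd.ev.2 hE)] at hent
      refine ⟨?_, Or.inl ⟨hE, ?_⟩⟩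
      · show dC (hh T pr s) e = _
        unfold dC
        rw [hent, Nat.unpair_pair]
      · show dO (hh T pr s) e = _
        unfold dO
        rw [hent, Nat.unpair_pair]
        rfl
    · rw [if_neg (fun h => hE (hd.ev.1 h))] at hent
      refine ⟨?_, Or.inr ⟨hE, ?_⟩⟩
      · show dC (hh T pr s) e = _
        unfold dC
        rw [hent, Nat.unpair_pair]
      · show dO (hh T pr s) e = _
        unfold dO
        rw [hent, Nat.unpair_pair]
        rfl
  no := by
    intro s e hn
    have key : ent (hh T pr s).unpair.2.unpair.2 e = 0 := by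
      by_cases hes : e < s
      · rw [con_ent T pr hes]
        rw [entry_eq T (hist_length T pr s) (row_length T _ e), if_neg]
        rintro ⟨h1, h2⟩
        exact hn ⟨h2, _, h1, (deq_con T pr (show e ≤ s by omega)).cert.1 (lst_prop h1)⟩
      · exact con_ent' T pr (by omega)
    constructor
    · show dC (hh T pr s) e = _
      unfold dC
      rw [key, unpair_zero']
    · show dO (hh T pr s) e = _
      unfold dO
      rw [key, unpair_zero']
      rfl
  zero := by
    constructor
    · show dJ (nxt T pr (hist T pr 0)) = _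
      unfold nxt dJ
      rw [if_pos (hist_length T pr 0), Nat.unpair_pair]
    · show dP (nxt T pr (hist T pr 0)) = _
      unfold nxt dP
      rw [if_pos (hist_length T pr 0), Nat.unpair_pair, Nat.unpair_pair]
  succ := by
    intro s hs
    have hd := deq_con T pr (le_refl s)
    set D := dof (getc (ext (hist T pr s) (row T (hist T pr s) s))) with hD
    have hval : hh T pr s = nxt T pr (hist T pr s) := rfl
    unfold nxt at hval
    rw [hist_length, if_neg (by omega)] at hval
    set j := lst (s + 1) (Miss D T s) with hj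
    by_cases hjs : j < s + 1
    · left
      rw [if_pos hjs] at hval
      have hM : Miss D T s j := lst_prop hjs
      have hnM : ∀ j' < j, ¬ Miss (con T pr) T s j' := fun j' hj' hM' =>
        lst_not hj' ((hd.miss (by omega)).2 hM')
      refine ⟨j, (hd.miss (by omega)).1 hM, by omega, hnM, ?_, ?_⟩
      · show dJ (hh T pr s) = _
        unfold dJ
        rw [hval, Nat.unpair_pair]
      · intro hTp hpj
        have hp : dP (hh T pr s) = lst s fun v => on D v s (pr j) := by
          unfold dP
          rw [hval, Nat.unpair_pair, Nat.unpair_pair]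
        have hex : ∃ v < s, on (con T pr) v s (pr j) := by
          by_contra hc
          exact hnM _ hpj ⟨hTp, hc⟩
        obtain ⟨v, hv, hov⟩ := hex
        have hlt : (lst s fun v => on D v s (pr j)) < s :=
          lt_of_le_of_lt (lst_le (hd.symm.on hv (by omega) hov)) hv
        show dP (hh T pr s) < s ∧ on (con T pr) (dP (hh T pr s)) s (pr j)
        rw [hp]
        exact ⟨hlt, hd.on hlt (by omega) (lst_prop hlt)⟩
    · right
      rw [if_neg hjs] at hval
      refine ⟨?_, ?_, ?_⟩
      · intro j' hj' hM'
        exact lst_not (by omega : j' < j) ((hd.miss (by omega)).2 hM')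
      · show dJ (hh T pr s) = _
        unfold dJ
        rw [hval, Nat.unpair_pair]
      · show dP (hh T pr s) = _
        unfold dP
        rw [hval, Nat.unpair_pair, Nat.unpair_pair]

end Pool.Agent.Helper941.Dim
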