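import Mathlib
import Pool.Agent.Helper941.Dim.Cons

set_option autoImplicit false

namespace Pool.Agent.Helper941.Dim

open Encodable Denumerable Nat.Partrec Pool.Agent.Helper941 Pool.Agent.Helper941.IsoProb
open Pool.Agent.Helper941.Zeta

variable {d : Dat} {T : ℕ → Prop} {pr g : ℕ → ℕ}

/-- the tree of labels -/
structure TH (T : ℕ → Prop) (pr : ℕ → ℕ) : Prop where
  zero : T 0
  up : ∀ j, 1 ≤ j → T j → T (pr j)
  lt : ∀ j, 1 ≤ j → pr j < j

theorem agr.symm {s s' e : ℕ} (h : agr d s s' e) : agr d s' s e := fun i hi => (h i hi).symm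

theorem agr.trans {s s' s'' e : ℕ} (h : agr d s s' e) (h' : agr d s' s'' e) : agr d s s'' e :=
  fun i hi => (h i hi).trans (h' i hi)

theorem agr.mono {s s' e e' : ℕ} (h : agr d s s' e) (he : e' ≤ e) : agr d s s' e' :=
  fun i hi => h i (by omega)

theorem lft.mono {s s' e e' : ℕ} (h : lft d s s' e) (he : e ≤ e') : lft d s s' e' := by
  obtain ⟨i, hi, h1, h2⟩ := h
  exact ⟨i, by omega, h1, h2⟩

theorem lft.congr {s s' s'' e : ℕ} (h : lft d s s' e) (h' : agr d s' s'' e) :
    lft d s s'' e := by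
  obtain ⟨i, hi, h1, h2⟩ := h
  exact ⟨i, hi, h1.trans (h'.mono (by omega)), by rw [← h' i hi]; exact h2⟩

theorem live.mono {v s s' : ℕ} (h : live d v s) (hs : s' ≤ s) : live d v s' :=
  fun x h1 h2 => h x (by omega) h2

/-- the guess of the stage `s` is correct below `e` -/
def vis (d : Dat) (g : ℕ → ℕ) (s e : ℕ) : Prop := ∀ i < e, d.O s i = g i

theorem vis.mono {s e e' : ℕ} (h : vis d g s e) (he : e' ≤ e) : vis d g s e' :=
  fun i hi => h i (by omega)

theorem vis.agr {s s' e : ℕ} (h : vis d g s e) (h' : vis d g s' e) : agr d s s' e :=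
  fun i hi => (h i hi).trans (h' i hi).symm

theorem vis.of_agr {s s' e : ℕ} (h : vis d g s e) (h' : Dim.agr d s' s e) : vis d g s' e :=
  fun i hi => (h' i hi).trans (h i hi)

/-- `g` is the true path -/
structure TP (d : Dat) (g : ℕ → ℕ) : Prop where
  inf : ∀ e N, ∃ s, N ≤ s ∧ vis d g s e
  left : ∀ e, ∃ N, ∀ s, N ≤ s → vis d g s e → g e ≤ d.O s e

theorem exists_tp (h2 : ∀ s e, d.O s e ≤ 2) : ∃ g, TP d g := by
  classical
  let step : ℕ → (ℕ → ℕ) → (ℕ → ℕ) := fun e G =>
    Function.update G e (sInf {o | ∀ N, ∃ s, N ≤ s ∧ (∀ i < e, d.O s i = G i) ∧ d.O s e = o})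
  let G : ℕ → ℕ → ℕ := fun n => Nat.rec (fun _ => 0) step n
  have hG : ∀ n, G (n + 1) = step n (G n) := fun n => rfl
  have hst : ∀ n i, i < n → G n i = G (i + 1) i := by
    intro n
    induction n with
    | zero => intro i hi; omega
    | succ n ih =>
      intro i hi
      by_cases h : i = n
      · subst h; rfl
      · rw [hG]
        show Function.update (G n) n _ i = _
        rw [Function.update_of_ne h]
        exact ih i (by omega)
  have hne : ∀ e, (∀ N, ∃ s, N ≤ s ∧ (∀ i < e, d.O s i = G e i)) →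
      ∃ o, ∀ N, ∃ s, N ≤ s ∧ (∀ i < e, d.O s i = G e i) ∧ d.O s e = o := by
    intro e he
    by_contra hc
    push Not at hc
    choose N hN using hc
    obtain ⟨s, hs, h1⟩ := he (N 0 + N 1 + N 2)
    have h3 := h2 s e
    have h4 : d.O s e = 0 ∨ d.O s e = 1 ∨ d.O s e = 2 := by omega
    rcases h4 with h4 | h4 | h4
    · exact hN 0 s (by omega) h1 h4
    · exact hN 1 s (by omega) h1 h4
    · exact hN 2 s (by omega) h1 h4
  have hval : ∀ e, G (e + 1) e =
      sInf {o | ∀ N, ∃ s, N ≤ s ∧ (∀ i < e, d.O s i = G e i) ∧ d.O s e = o} := by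
    intro e
    rw [hG]
    show Function.update (G e) e _ e = _
    rw [Function.update_self]
  have hinf : ∀ e, ∀ N, ∃ s, N ≤ s ∧ (∀ i < e, d.O s i = G e i) := by
    intro e
    induction e with
    | zero => intro N; exact ⟨N, le_refl _, fun i hi => by omega⟩
    | succ e ih =>
      intro N
      have h3 := Nat.sInf_mem (s := {o | ∀ N, ∃ s, N ≤ s ∧ (∀ i < e, d.O s i = G e i) ∧
        d.O s e = o}) (hne e ih)
      rw [← hval e] at h3
      obtain ⟨s, h4, h5, h6⟩ := h3 N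
      refine ⟨s, h4, fun i hi => ?_⟩
      by_cases h7 : i = e
      · subst h7; exact h6
      · rw [h5 i (by omega), hst e i (by omega), hst (e + 1) i (by omega)]
  refine ⟨fun e => G (e + 1) e, ?_, ?_⟩
  · intro e N
    obtain ⟨s, h3, h4⟩ := hinf e N
    exact ⟨s, h3, fun i hi => by rw [h4 i hi, hst e i hi]⟩
  · intro e
    have hbad : ∀ o, o < G (e + 1) e → ∃ N, ∀ s, N ≤ s → (∀ i < e, d.O s i = G e i) →
        d.O s e ≠ o := by
      intro o ho
      by_contra hc
      push Not at hc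
      have : G (e + 1) e ≤ o := by
        rw [hval e]
        exact Nat.sInf_le (s := {o | ∀ N, ∃ s, N ≤ s ∧ (∀ i < e, d.O s i = G e i) ∧
          d.O s e = o}) hc
      omega
    choose! N hN using hbad
    refine ⟨∑ o ∈ Finset.range (G (e + 1) e), N o, fun s hs hv => ?_⟩
    by_contra hc
    push Not at hc
    refine hN (d.O s e) hc s ?_ ?_ rfl
    · refine le_trans ?_ hs
      exact Finset.single_le_sum (f := N) (fun _ _ => Nat.zero_le _) (Finset.mem_range.2 hc)
    · intro i hi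
      rw [hv i hi, hst e i hi]

/-- from stage `N` on there is no stage to the left of the true path below `e` -/
theorem TP.stable (h : TP d g) (e : ℕ) : ∃ N, ∀ s, N ≤ s → ∀ i < e, vis d g s i →
    g i ≤ d.O s i := by
  choose N hN using h.left
  refine ⟨∑ i ∈ Finset.range e, N i, fun s hs i hi hv => hN i s ?_ hv⟩
  refine le_trans ?_ hs
  exact Finset.single_le_sum (f := N) (fun _ _ => Nat.zero_le _) (Finset.mem_range.2 hi)

theorem not_lft {N e : ℕ} (hN : ∀ s, N ≤ s → ∀ i < e, vis d g s i → g i ≤ d.O s i) {s v : ℕ}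
    (hs : N ≤ s) {j : ℕ} (hv : vis d g v j) (hj : j ≤ e) : ¬ lft d s v j := by
  rintro ⟨i, hi, h1, h2⟩
  have h3 := hN s hs i (by omega) ((hv.mono (by omega)).of_agr h1)
  rw [← hv i hi] at h3
  omega

/-! ### facts on the nodes -/

theorem Spec.O_le (hS : Spec T pr d) (s e : ℕ) : d.O s e ≤ 2 := by
  by_cases h : e < s ∧ ∃ c < s, Cert d T s e c
  · obtain ⟨c, _, _, _, h1⟩ := hS.yes s e h.1 h.2
    rcases h1 with h1 | h1 <;> omega
  · have := (hS.no s e h).2
    omega

theorem Spec.child (hS : Spec T pr d) (hT : TH T pr) {u j : ℕ} (hu : 1 ≤ u)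
    (hj : d.J u = j + 1) : 1 ≤ j ∧ T j ∧ d.pa u < u ∧ on d (d.pa u) u (pr j) ∧
      ¬ ∃ v < u, on d v u j := by
  rcases hS.succ u hu with ⟨k, h1, _, _, h4, h5⟩ | ⟨_, h1, _⟩
  · have hk : k = j := by omega
    subst hk
    have hk1 : 1 ≤ k := by
      by_contra hc
      have : k = 0 := by omega
      subst this
      refine h1.2 ⟨0, by omega, hS.zero.1, fun i hi => by omega, ?_⟩
      intro s' _ _ hl
      rw [hS.zero.1] at hl
      obtain ⟨i, hi, _⟩ := hl
      omega
    obtain ⟨h6, h7⟩ := h5 (hT.up k hk1 h1.1) (hT.lt k hk1)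
    exact ⟨hk1, h1.1, h6, h7, h1.2⟩
  · omega

theorem Spec.leaf (hS : Spec T pr d) {u : ℕ} (hu : 1 ≤ u) (hj : d.J u = 0) : d.pa u = 0 := by
  rcases hS.succ u hu with ⟨k, h1, _, _, h4, h5⟩ | ⟨_, _, h1⟩
  · omega
  · exact h1

theorem Spec.pa_lt (hS : Spec T pr d) (hT : TH T pr) {u : ℕ} (hu : 1 ≤ u) : d.pa u < u := by
  by_cases h : d.J u = 0
  · rw [hS.leaf hu h]; omega
  · obtain ⟨j, hj⟩ : ∃ j, d.J u = j + 1 := ⟨d.J u - 1, by omega⟩
    exact (hS.child hT hu hj).2.2.1

theorem Spec.uniq (hS : Spec T pr d) (hT : TH T pr) {v v' s j : ℕ} (hv : v ≤ s) (hv' : v' ≤ s)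
    (h : on d v s j) (h' : on d v' s j) : v = v' := by
  have key : ∀ a b, a < b → b ≤ s → on d a s j → on d b s j → False := by
    intro a b hab hbs h1 h2
    obtain ⟨_, _, _, _, h3⟩ := hS.child hT (show 1 ≤ b by omega) h2.1
    exact h3 ⟨a, hab, h1.1, h1.2.1.trans h2.2.1.symm, h1.2.2.mono hbs⟩
  rcases lt_trichotomy v v' with h1 | h1 | h1
  · exact (key _ _ h1 hv' h h').elim
  · exact h1
  · exact (key _ _ h1 hv h' h).elim

/-- if `u` is a current node then so is its parent -/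
theorem Spec.on_pa (hS : Spec T pr d) (hT : TH T pr) {u j s : ℕ} (hu : 1 ≤ u) (_hus : u ≤ s)
    (h : on d u s j) : on d (d.pa u) s (pr j) := by
  obtain ⟨h1, h2, h3, h4, _⟩ := hS.child hT hu h.1
  have hlt := hT.lt j h1
  refine ⟨h4.1, h4.2.1.trans (h.2.1.mono (by omega)), ?_⟩
  intro s' hs' hlt' hl
  by_cases h5 : s' ≤ u
  · exact h4.2.2 s' (by omega) hlt' hl
  · refine h.2.2 s' hs' (by omega) ?_
    rw [h4.1] at hl
    rw [h.1]
    exact (hl.congr (h4.2.1.mono (by omega))).mono (by omega)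

/-- `a` is the true node with label `j` -/
def Pers (d : Dat) (g : ℕ → ℕ) (a j : ℕ) : Prop :=
  d.J a = j + 1 ∧ vis d g a j ∧ ∀ s, a < s → ¬ lft d s a j

theorem Pers.on {a j s : ℕ} (h : Pers d g a j) (hs : vis d g s j) : on d a s j := by
  refine ⟨h.1, h.2.1.agr hs, fun s' _ h2 => ?_⟩
  rw [h.1]
  exact h.2.2 s' h2

theorem Pers.uniq (hS : Spec T pr d) (hT : TH T pr) (hg : TP d g) {a a' j : ℕ}
    (h : Pers d g a j) (h' : Pers d g a' j) : a = a' := by
  obtain ⟨s, hs, hv⟩ := hg.inf j (a + a')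
  exact hS.uniq hT (by omega) (by omega) (h.on hv) (h'.on hv)

theorem pers_exists (hS : Spec T pr d) (hg : TP d g) (j : ℕ) (hj : T j) :
    ∃ a, Pers d g a j := by
  induction j using Nat.strong_induction_on with
  | _ j ih =>
    obtain ⟨N, hN⟩ := hg.stable j
    choose! a ha using ih
    obtain ⟨s, hs, hv⟩ := hg.inf j (N + j + 1 + ∑ i ∈ Finset.range j, a i)
    have hnm : ∀ i < j, ¬ Miss d T s i := by
      intro i hi hm
      have h1 := ha i hi hm.1
      have h2 : a i ≤ ∑ i ∈ Finset.range j, a i :=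
        Finset.single_le_sum (f := a) (fun _ _ => Nat.zero_le _) (Finset.mem_range.2 hi)
      exact hm.2 ⟨a i, by omega, h1.on (hv.mono (by omega))⟩
    by_cases h : ∃ v < s, on d v s j
    · obtain ⟨v, hvs, h1, h2, h3⟩ := h
      refine ⟨v, h1, hv.of_agr h2, fun s' hs' hl => ?_⟩
      by_cases h4 : s' ≤ s
      · refine h3 s' (by omega) hs' ?_
        rw [h1]; exact hl
      · exact not_lft hN (by omega) (hv.of_agr h2) (le_refl j) hl
    · have hm : Miss d T s j := ⟨hj, h⟩
      rcases hS.succ s (by omega) with ⟨k, h1, _, h3, h4, _⟩ | ⟨h1, _⟩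
      · have hkj : k = j := by
          rcases lt_trichotomy k j with h5 | h5 | h5
          · exact (hnm k h5 h1).elim
          · exact h5
          · exact (h3 j h5 hm).elim
        subst hkj
        exact ⟨s, h4, hv, fun s' hs' => not_lft hN (by omega) hv (le_refl _)⟩
      · exact (h1 j (by omega) hm).elim

theorem Pers.pa (hS : Spec T pr d) (hT : TH T pr) {a j : ℕ} (h : Pers d g a j) (hj : 1 ≤ j) :
    1 ≤ a ∧ Pers d g (d.pa a) (pr j) := by
  have ha : 1 ≤ a := by
    by_contra hc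
    have h0 : a = 0 := by omega
    have := h.1
    rw [h0, hS.zero.1] at this
    omega
  obtain ⟨_, _, h3, h4, _⟩ := hS.child hT ha h.1
  have hlt := hT.lt j hj
  refine ⟨ha, h4.1, (h.2.1.mono (by omega)).of_agr h4.2.1, fun s hs hl => ?_⟩
  by_cases h5 : s ≤ a
  · refine h4.2.2 s (by omega) hs ?_
    rw [h4.1]; exact hl
  · exact h.2.2 s (by omega) ((hl.congr h4.2.1).mono (by omega))

theorem pers_zero (hS : Spec T pr d) : Pers d g 0 0 :=
  ⟨hS.zero.1, fun i hi => by omega, fun s _ ⟨i, hi, _⟩ => by omega⟩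

end Pool.Agent.Helper941.Dim
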