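import Mathlib
import Pool.Agent.Helper941.Dim.Path

set_option autoImplicit false

namespace Pool.Agent.Helper941.Dim

open Encodable Denumerable Nat.Partrec Pool.Agent.Helper941 Pool.Agent.Helper941.IsoProb
open Pool.Agent.Helper941.Zeta

/-- the nodes below the outcome `1` of the true path at level `e` -/
def Rt (d : Dat) (g : ℕ → ℕ) (e v : ℕ) : Prop := vis d g v e ∧ d.O v e = 1 ∧ e + 1 < d.J v

/-- the true nodes with labels at most `e` -/
def UU (d : Dat) (g : ℕ → ℕ) (e v : ℕ) : Prop := ∃ j ≤ e, Pers d g v j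

/-- consecutive elements of `R` -/
def pv (R : ℕ → Prop) (s' s : ℕ) : Prop := R s' ∧ R s ∧ s' < s ∧ ∀ x, s' < x → x < s → ¬ R x

theorem exists_pv {R : ℕ → Prop} {r s : ℕ} (hr : R r) (hs : R s) (h : r < s) :
    ∃ s', pv R s' s ∧ r ≤ s' := by
  classical
  refine ⟨Nat.findGreatest R (s - 1), ⟨Nat.findGreatest_spec (show r ≤ s - 1 by omega) hr, hs,
    ?_, ?_⟩, Nat.le_findGreatest (by omega) hr⟩
  · have := Nat.findGreatest_le (P := R) (s - 1)
    omega
  · intro x hx hxs
    exact Nat.findGreatest_is_greatest hx (by omega)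

theorem iterate_le {pa : ℕ → ℕ} (hp : ∀ u, pa u ≤ u) (k x : ℕ) : pa^[k] x ≤ x := by
  induction k generalizing x with
  | zero => exact le_refl _
  | succ k ih =>
    rw [Function.iterate_succ_apply]
    exact le_trans (ih _) (hp x)

theorem anc_le {pa : ℕ → ℕ} (hp : ∀ u, pa u ≤ u) {x k l : ℕ} (h : pa^[k] x < pa^[l] x) :
    pa^[k] x ≤ pa (pa^[l] x) := by
  by_cases h1 : l < k
  · obtain ⟨m, rfl⟩ : ∃ m, k = m + 1 + l := ⟨k - l - 1, by omega⟩
    rw [Function.iterate_add_apply, Function.iterate_succ_apply]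
    exact iterate_le hp _ _
  · obtain ⟨m, rfl⟩ : ∃ m, l = m + k := ⟨l - k, by omega⟩
    rw [Function.iterate_add_apply] at h
    have := iterate_le hp m (pa^[k] x)
    omega

variable {d : Dat} {T : ℕ → Prop} {pr g : ℕ → ℕ} {e N : ℕ} {R : ℕ → Prop} {M : ℕ → ℕ}
  {t : ℕ → ℕ → ℕ}

/-- the abstract properties of the responses of an opponent -/
structure Rsp (d : Dat) (g : ℕ → ℕ) (e N : ℕ) (R : ℕ → Prop) (M : ℕ → ℕ)
    (t : ℕ → ℕ → ℕ) : Prop where
  stab : ∀ s, N ≤ s → ∀ i < e, vis d g s i → g i ≤ d.O s i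
  res : ∀ s, R s ↔ N ≤ s ∧ vis d g s e ∧ ¬ d.O s e = 2
  inf : ∀ n, ∃ s, n ≤ s ∧ R s
  Mle : ∀ s, R s → M s ≤ s
  ltM : ∀ s' s, pv R s' s → s' < M s
  U : ∀ s a, R s → UU d g e a → a < M s
  val : ∀ s v, R s → v < M s → ∀ u, (t s v).testBit u = true → 1 ≤ u ∧ d.pa u = v
  par : ∀ s u, R s → 1 ≤ u → u < M s → (t s (d.pa u)).testBit u = par (t s u)
  chg : ∀ s' s v u, pv R s' s → v < M s' → (t s v).testBit u ≠ (t s' v).testBit u → u < M s
  evt : ∀ s' s u, pv R s' s → d.pa u < M s' → u ≤ s' → Rt d g e u →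
    (t s (d.pa u)).testBit u ≠ (t s' (d.pa u)).testBit u → d.O s e = 0
  nev : ∀ s' s, pv R s' s → d.O s e = 0 → ∃ v ≤ s', Rt d g e v ∧ d.pa v < M s' ∧
    (t s (d.pa v)).testBit v ≠ (t s' (d.pa v)).testBit v

theorem rt_pos (hS : Spec T pr d) {v : ℕ} (h : Rt d g e v) : 1 ≤ v := by
  by_contra hc
  have h0 : v = 0 := by omega
  have h1 := h.2.2
  rw [h0, hS.zero.1] at h1
  omega

theorem rt_child (hS : Spec T pr d) (hT : TH T pr) {v u : ℕ} (h : Rt d g e v) (hu : 1 ≤ u)
    (hp : d.pa u = v) : Rt d g e u ∧ Dim.live d v u := by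
  have hv := rt_pos hS h
  have hJ : d.J u ≠ 0 := fun hc => by
    have := hS.leaf hu hc
    omega
  obtain ⟨j, hj⟩ : ∃ j, d.J u = j + 1 := ⟨d.J u - 1, by omega⟩
  obtain ⟨h1, _, _, h4, _⟩ := hS.child hT hu hj
  rw [hp] at h4
  have hlt := hT.lt j h1
  have hev : e < pr j := by
    have := h4.1
    have := h.2.2
    omega
  refine ⟨⟨?_, ?_, by omega⟩, h4.2.2⟩
  · exact h.1.of_agr (h4.2.1.symm.mono (by omega))
  · rw [← h4.2.1 e hev]; exact h.2.1

theorem rt_kill {v x y : ℕ} (h : Rt d g e v) (hx : v < x) (hvx : vis d g x e)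
    (h0 : d.O x e = 0) (hy : x ≤ y) : ¬ Dim.live d v y := by
  intro hl
  refine hl x (by omega) hx ⟨e, ?_, hvx.agr h.1, ?_⟩
  · have := h.2.2
    omega
  · rw [h0, h.2.1]; omega

section
variable (hS : Spec T pr d) (hT : TH T pr) (H : Rsp d g e N R M t)

include H in
theorem Rsp.ge {s : ℕ} (h : R s) : N ≤ s := ((H.res s).1 h).1

include H in
theorem Rsp.vis {s : ℕ} (h : R s) : vis d g s e := ((H.res s).1 h).2.1

include H in
theorem Rsp.rt {v : ℕ} (h : Rt d g e v) (hv : N ≤ v) : R v :=
  (H.res v).2 ⟨hv, h.1, by rw [h.2.1]; omega⟩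

include H in
theorem Rsp.rt_le {s' s v : ℕ} (hp : pv R s' s) (h : Rt d g e v) (hv : v < s) : v ≤ s' := by
  by_contra hc
  have := H.ge hp.1
  exact hp.2.2.2 v (by omega) hv (H.rt h (by omega))

include hS hT H in
/-- the children of relevant nodes before an event -/
theorem Rsp.child_le {s' s u : ℕ} (hp : pv R s' s) (h0 : d.O s e = 0)
    (hv : d.pa u ≤ s') (h : Rt d g e (d.pa u)) (hu : 1 ≤ u) : Rt d g e u ∧ u ≤ s' := by
  obtain ⟨h1, h2⟩ := rt_child hS hT h hu rfl
  refine ⟨h1, H.rt_le hp h1 ?_⟩
  by_contra hc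
  have hps := hp.2.2.1
  exact rt_kill h (x := s) (y := u) (by omega) (H.vis hp.2.1) h0 (by omega) h2

include hS hT H in
theorem Rsp.event_zero {s' s : ℕ} (hp : pv R s' s) (h0 : d.O s e = 0) (v : ℕ) (hv : v ≤ s')
    (h : Rt d g e v) : t s v = 0 := by
  have hM := H.ltM s' s hp
  have key : ∀ k v, s' - v = k → v ≤ s' → Rt d g e v → t s v = 0 := by
    intro k
    induction k using Nat.strong_induction_on with
    | _ k ih =>
      intro v hk hv h
      refine eq_zero_of fun u => ?_
      by_contra hc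
      simp only [Bool.not_eq_false] at hc
      obtain ⟨h1, h2⟩ := H.val s v hp.2.1 (by omega) u hc
      have h3 := hS.pa_lt hT h1
      obtain ⟨h4, h5⟩ := H.child_le hS hT hp h0 (by omega) (by rw [h2]; exact h) h1
      have h6 := ih (s' - u) (by omega) u rfl h5 h4
      have h7 := H.par s u hp.2.1 h1 (by omega)
      rw [h2, hc, h6] at h7
      exact Bool.noConfusion h7
  exact key _ v rfl hv h

include hS hT H in
theorem Rsp.event_up {s'' s' s : ℕ} (hp' : pv R s'' s') (hp : pv R s' s) (h0 : d.O s e = 0)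
    (v : ℕ) (hv : v ≤ s') (h : Rt d g e v) (hM : d.pa v < M s')
    (hb : (t s' (d.pa v)).testBit v = true) :
    Rt d g e s' ∧ d.pa s' < M s' ∧ (t s' (d.pa s')).testBit s' = true := by
  have hM' := H.ltM s'' s' hp'
  have key : ∀ k v, s' - v = k → v ≤ s' → Rt d g e v → d.pa v < M s' →
      (t s' (d.pa v)).testBit v = true →
      Rt d g e s' ∧ d.pa s' < M s' ∧ (t s' (d.pa s')).testBit s' = true := by
    intro k
    induction k using Nat.strong_induction_on with
    | _ k ih =>
      intro v hk hv h hM hb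
      by_cases hvs : v = s'
      · subst hvs
        exact ⟨h, hM, hb⟩
      · have hle : v ≤ s'' := H.rt_le hp' h (by omega)
        have hv1 := rt_pos hS h
        have h1 := H.par s' v hp.1 hv1 (by omega)
        rw [hb] at h1
        obtain ⟨u, hu⟩ := exists_of_par h1.symm
        obtain ⟨h2, h3⟩ := H.val s' v hp.1 (by omega) u hu
        have h4 := hS.pa_lt hT h2
        obtain ⟨h5, h6⟩ := H.child_le hS hT hp h0 (by omega) (by rw [h3]; exact h) h2
        exact ih (s' - u) (by omega) u rfl h6 h5 (by omega) (by rw [h3]; exact hu)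
  exact key _ v rfl hv h hM hb

include hS hT H in
theorem Rsp.event_anc {s'' s' s : ℕ} (hp' : pv R s'' s') (hp : pv R s' s) (h0 : d.O s e = 0)
    (hb : (t s' (d.pa s')).testBit s' = true) (w : ℕ) (hw : w ≤ s'') (h : Rt d g e w) (u : ℕ) :
    (t s' w).testBit u = true ↔ (1 ≤ u ∧ d.pa u = w ∧ ∃ k, d.pa^[k] s' = u) := by
  have hM' := H.ltM s'' s' hp'
  have hlt' := hp'.2.2.1
  have hpa : ∀ u, d.pa u ≤ u := by
    intro u
    by_cases hu : 1 ≤ u
    · exact le_of_lt (hS.pa_lt hT hu)
    · have : u = 0 := by omega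
      subst this
      rw [hS.zero.2]
  have key : ∀ k w, s' - w = k → w ≤ s'' → Rt d g e w → ∀ u, (t s' w).testBit u = true ↔
      (1 ≤ u ∧ d.pa u = w ∧ ∃ k, d.pa^[k] s' = u) := by
    intro k
    induction k using Nat.strong_induction_on with
    | _ k ih =>
      intro w hk hw h u
      constructor
      · intro hu
        obtain ⟨h2, h3⟩ := H.val s' w hp.1 (by omega) u hu
        refine ⟨h2, h3, ?_⟩
        have h4 := hS.pa_lt hT h2
        obtain ⟨h5, h6⟩ := H.child_le hS hT hp h0 (by omega) (by rw [h3]; exact h) h2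
        by_cases hus : u = s'
        · exact ⟨0, hus.symm⟩
        · have hle : u ≤ s'' := H.rt_le hp' h5 (by omega)
          have h7 := H.par s' u hp.1 h2 (by omega)
          rw [h3, hu] at h7
          obtain ⟨u', hu'⟩ := exists_of_par h7.symm
          obtain ⟨_, h8, m, h9⟩ := (ih (s' - u) (by omega) u rfl hle h5 u').1 hu'
          refine ⟨m + 1, ?_⟩
          rw [Function.iterate_succ_apply', h9, h8]
      · rintro ⟨h2, h3, m, h4⟩
        by_cases hus : u = s'
        · rw [← h3, hus]; exact hb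
        · obtain ⟨m', rfl⟩ : ∃ m', m = m' + 1 := by
            refine ⟨m - 1, ?_⟩
            by_contra hc
            have : m = 0 := by omega
            subst this
            exact hus h4.symm
          have hle : u ≤ s' := by
            rw [← h4]; exact iterate_le hpa _ _
          have h5 := hS.pa_lt hT h2
          have hr : Rt d g e u := (rt_child hS hT h h2 h3).1
          have hle' : u ≤ s'' := H.rt_le hp' hr (by omega)
          have h7 := H.par s' u hp.1 h2 (by omega)
          rw [← h3, h7]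
          rw [Function.iterate_succ_apply'] at h4
          have hu'1 : 1 ≤ d.pa^[m'] s' := by
            have := hpa (d.pa^[m'] s')
            omega
          have h8 : ∀ x, (t s' u).testBit x = true ↔
              (1 ≤ x ∧ d.pa x = u ∧ ∃ k, d.pa^[k] s' = x) :=
            ih (s' - u) (by omega) u rfl hle' hr
          have h9 : t s' u = 2 ^ (d.pa^[m'] s') := by
            refine eq_two_pow_of ((h8 _).2 ⟨hu'1, h4, m', rfl⟩) fun x hx => ?_
            obtain ⟨x1, x2, l, x3⟩ := (h8 x).1 hx
            have x4 := hS.pa_lt hT x1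
            have x5 := hS.pa_lt hT hu'1
            rcases lt_trichotomy x (d.pa^[m'] s') with h10 | h10 | h10
            · rw [← x3] at h10
              have := anc_le hpa h10
              rw [x3, h4] at this
              omega
            · exact h10
            · rw [← x3] at h10
              have := anc_le hpa h10
              rw [x3] at this
              omega
          rw [h9, par_two_pow]
  exact key _ w rfl hw h u

include hS hT H in
/-- at an event a coordinate of a true node is changed -/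
theorem Rsp.event_main {s'' s' s : ℕ} (hp' : pv R s'' s') (hp : pv R s' s)
    (h0 : d.O s e = 0) : ∃ b, Rt d g e b ∧ b ≤ s' ∧ Dim.live d b s' ∧ UU d g e (d.pa b) ∧
      (t s' (d.pa b)).testBit b = true := by
  have hM' := H.ltM s'' s' hp'
  have hM := H.ltM s' s hp
  have hlt' := hp'.2.2.1
  obtain ⟨v, hv, hr, hm, hne⟩ := H.nev s' s hp h0
  have hz := H.event_zero hS hT hp h0 v hv hr
  have h1 := H.par s v hp.2.1 (rt_pos hS hr) (by omega)
  rw [hz, par_zero] at h1
  rw [h1] at hne
  have hb : (t s' (d.pa v)).testBit v = true := by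
    by_contra hc
    simp only [Bool.not_eq_true] at hc
    exact hne hc.symm
  obtain ⟨hrs, hms, hbs⟩ := H.event_up hS hT hp' hp h0 v hv hr hm hb
  have hpa : ∀ u, d.pa u ≤ u := by
    intro u
    by_cases hu : 1 ≤ u
    · exact le_of_lt (hS.pa_lt hT hu)
    · have : u = 0 := by omega
      subst this
      rw [hS.zero.2]
  -- the topmost relevant ancestor
  have key : ∀ n w, w = n → Rt d g e w → (∃ k, d.pa^[k] s' = w) →
      (∃ j, on d w s' j) → ∃ b, Rt d g e b ∧ ¬ Rt d g e (d.pa b) ∧ (∃ k, d.pa^[k] s' = b) ∧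
        ∃ j, on d b s' j := by
    intro n
    induction n using Nat.strong_induction_on with
    | _ n ih =>
      intro w hw h1 h2 h3
      by_cases h4 : Rt d g e (d.pa w)
      · have hw1 := rt_pos hS h1
        obtain ⟨k, hk⟩ := h2
        obtain ⟨j, hj⟩ := h3
        have hle : w ≤ s' := by rw [← hk]; exact iterate_le hpa _ _
        have := hS.pa_lt hT hw1
        refine ih (d.pa w) (by omega) _ rfl h4 ⟨k + 1, ?_⟩ ⟨pr j, hS.on_pa hT hw1 hle hj⟩
        rw [Function.iterate_succ_apply', hk]
      · exact ⟨w, h1, h4, h2, h3⟩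
  obtain ⟨b, hb1, hb2, ⟨k, hb3⟩, j, hb4⟩ := key s' s' rfl hrs ⟨0, rfl⟩
    ⟨d.J s' - 1, by have := hrs.2.2; omega, fun i _ => rfl, fun x hx hx' => by omega⟩
  have hbs' : b ≤ s' := by rw [← hb3]; exact iterate_le hpa _ _
  have hbp := rt_pos hS hb1
  have hpb := hS.pa_lt hT hbp
  refine ⟨b, hb1, hbs', hb4.2.2, ?_, ?_⟩
  · have h5 := hS.on_pa hT hbp hbs' hb4
    obtain ⟨h6, _, _, h7, _⟩ := hS.child hT hbp hb4.1
    have hlt := hT.lt j h6
    have hle : pr j ≤ e := by
      by_contra hc
      refine hb2 ⟨hb1.1.of_agr (h7.2.1.mono (by omega)), ?_, ?_⟩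
      · rw [h7.2.1 e (by omega)]; exact hb1.2.1
      · rw [h7.1]; omega
    refine ⟨pr j, hle, h7.1, (hb1.1.mono hle).of_agr h7.2.1, fun x hx hl => ?_⟩
    by_cases hxs : x ≤ s'
    · refine h5.2.2 x (by omega) hx ?_
      rw [h5.1]; exact hl
    · have := H.ge hp.1
      exact not_lft H.stab (by omega) ((hb1.1.mono hle).of_agr h7.2.1) hle hl
  · by_cases hbe : b = s'
    · rw [hbe]; exact hbs
    · have hle : b ≤ s'' := H.rt_le hp' hb1 (by omega)
      have h7 := H.par s' b hp.1 hbp (by omega)
      rw [h7]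
      have h8 := H.event_anc hS hT hp' hp h0 hbs b hle hb1
      obtain ⟨k', rfl⟩ : ∃ k', k = k' + 1 := by
        refine ⟨k - 1, ?_⟩
        by_contra hc
        have : k = 0 := by omega
        subst this
        exact hbe hb3.symm
      rw [Function.iterate_succ_apply'] at hb3
      have hu'1 : 1 ≤ d.pa^[k'] s' := by
        have := hpa (d.pa^[k'] s')
        omega
      have h9 : t s' b = 2 ^ (d.pa^[k'] s') := by
        refine eq_two_pow_of ((h8 _).2 ⟨hu'1, hb3, k', rfl⟩) fun x hx => ?_
        obtain ⟨x1, x2, l, x3⟩ := (h8 x).1 hx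
        have x4 := hS.pa_lt hT x1
        have x5 := hS.pa_lt hT hu'1
        rcases lt_trichotomy x (d.pa^[k'] s') with h10 | h10 | h10
        · rw [← x3] at h10
          have := anc_le hpa h10
          rw [x3, hb3] at this
          omega
        · exact h10
        · rw [← x3] at h10
          have := anc_le hpa h10
          rw [x3] at this
          omega
      rw [h9, par_two_pow]

include H in
/-- going back to an earlier response -/
theorem Rsp.back {r b s' : ℕ} (hr : R r) (hb : Rt d g e b) (hU : UU d g e (d.pa b))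
    (hne : ∀ s, r < s → s ≤ s' → R s → b < s → d.O s e ≠ 0) (s : ℕ) (hs : R s) (hrs : r ≤ s)
    (hss : s ≤ s') (ht : (t s (d.pa b)).testBit b = true) :
    (t r (d.pa b)).testBit b = true := by
  induction s using Nat.strong_induction_on with
  | _ s ih =>
    by_cases h : s = r
    · rw [← h]; exact ht
    · obtain ⟨s0, h1, h2⟩ := exists_pv hr hs (by omega)
      have h3 := h1.2.2.1
      refine ih s0 h3 h1.1 h2 (by omega) ?_
      by_contra hc
      have h4 : (t s (d.pa b)).testBit b ≠ (t s0 (d.pa b)).testBit b := by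
        rw [ht]; exact fun h => hc h.symm
      have h5 := H.U s0 _ h1.1 hU
      have h6 := H.chg s0 s _ b h1 h5 h4
      have h7 := H.Mle s hs
      have h8 : b ≤ s0 := H.rt_le h1 hb (by omega)
      exact hne s (by omega) hss hs (by omega) (H.evt s0 s b h1 h5 h8 hb h4)

include hS hT H in
/-- there are only finitely many events -/
theorem Rsp.no_events : ∃ E, N ≤ E ∧ R E ∧ ∀ s, E ≤ s → R s → d.O s e = 1 := by
  obtain ⟨r, _, hr⟩ := H.inf 0
  have hfin : ∃ E, ∀ s, E ≤ s → R s → d.O s e ≠ 0 := by
    by_contra hc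
    push Not at hc
    obtain ⟨E1, h1, h2, h3⟩ := hc (r + 1 + ∑ a ∈ Finset.range (M r), t r a)
    obtain ⟨E2, h4, h5, h6⟩ := hc (E1 + 1)
    obtain ⟨s', h7, h8⟩ := exists_pv h2 h5 (by omega)
    obtain ⟨s'', h9, h10⟩ := exists_pv hr h7.1 (by omega)
    obtain ⟨b, hb1, hb2, hb3, hb4, hb5⟩ := H.event_main hS hT h9 h7 h6
    have hne : ∀ s, r < s → s ≤ s' → R s → b < s → d.O s e ≠ 0 := by
      intro s _ hs2 hs3 hs4 hs5
      exact rt_kill hb1 hs4 (H.vis hs3) hs5 hs2 hb3
    have h11 := H.back hr hb1 hb4 hne s' h7.1 (by omega) (le_refl _) hb5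
    have h12 := testBit_lt h11
    have h13 : t r (d.pa b) ≤ ∑ a ∈ Finset.range (M r), t r a :=
      Finset.single_le_sum (f := t r) (fun _ _ => Nat.zero_le _)
        (Finset.mem_range.2 (H.U r _ hr hb4))
    exact hne E1 (by omega) h8 h2 (by omega) h3
  obtain ⟨E, hE⟩ := hfin
  obtain ⟨s0, h1, h2⟩ := H.inf (E + N)
  refine ⟨s0, by omega, h2, fun s hs hR => ?_⟩
  have h3 := hE s (by omega) hR
  have h4 := ((H.res s).1 hR).2.2
  have h5 := hS.O_le s e
  omega

end

/-- `v` has no children from stage `x` on -/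
def Dead (d : Dat) (v x : ℕ) : Prop := ∀ u, x ≤ u → ∀ j, ¬ on d v u j

theorem dead_child (hS : Spec T pr d) (hT : TH T pr) {v u x : ℕ} (h : Dead d v x) (hv : 1 ≤ v)
    (hu : 1 ≤ u) (hp : d.pa u = v) : u < x ∧ Dead d u x := by
  have hJ : d.J u ≠ 0 := fun hc => by
    have := hS.leaf hu hc
    omega
  obtain ⟨j, hj⟩ : ∃ j, d.J u = j + 1 := ⟨d.J u - 1, by omega⟩
  obtain ⟨h1, _, _, h4, _⟩ := hS.child hT hu hj
  have h5 : u < x := by
    by_contra hc
    exact h u (by omega) _ (by rw [← hp]; exact h4)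
  refine ⟨h5, fun y hy k hk => ?_⟩
  have h6 := hS.on_pa hT hu (by omega) hk
  rw [hp] at h6
  exact h y hy _ h6

section
variable (hS : Spec T pr d) (hT : TH T pr) (H : Rsp d g e N R M t)

include hS hT H in
theorem Rsp.dead_zero {s x : ℕ} (hs : R s) (hx : x ≤ M s) (v : ℕ) (hv : 1 ≤ v) (hvM : v < M s)
    (h : Dead d v x) : t s v = 0 := by
  have key : ∀ k v, M s - v = k → 1 ≤ v → v < M s → Dead d v x → t s v = 0 := by
    intro k
    induction k using Nat.strong_induction_on with
    | _ k ih =>
      intro v hk hv hvM h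
      refine eq_zero_of fun u => ?_
      by_contra hc
      simp only [Bool.not_eq_false] at hc
      obtain ⟨h1, h2⟩ := H.val s v hs hvM u hc
      have h3 := hS.pa_lt hT h1
      obtain ⟨h4, h5⟩ := dead_child hS hT h hv h1 h2
      have h6 := ih (M s - u) (by omega) u rfl h1 (by omega) h5
      have h7 := H.par s u hs h1 (by omega)
      rw [h2, hc, h6] at h7
      exact Bool.noConfusion h7
  exact key _ v rfl hv hvM h

include H in
theorem Rsp.tri {E : ℕ} (hE : ∀ s, E ≤ s → R s → d.O s e = 1) {s' : ℕ} (hs : R s')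
    (hEs : E ≤ s') {v : ℕ} (hv : v ≤ s') : Dead d v s' ∨ UU d g e v ∨ Rt d g e v := by
  by_cases hD : Dead d v s'
  · exact Or.inl hD
  · right
    unfold Dead at hD
    push Not at hD
    obtain ⟨u, hu, j, h1, h2, h3⟩ := hD
    have hN := H.ge hs
    have hvs := H.vis hs
    have h4 : ∀ i, i ≤ j → i ≤ e → Dim.vis d g v i := by
      intro i
      induction i with
      | zero => intro _ _ k hk; omega
      | succ i ih =>
        intro hij hie
        have h5 := ih (by omega) (by omega)
        intro k hk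
        by_cases hki : k < i
        · exact h5 k hki
        · have hk' : k = i := by omega
          subst hk'
          rcases lt_trichotomy (d.O v k) (g k) with h6 | h6 | h6
          · exfalso
            have h7 := H.stab u (by omega) k (by omega) (h5.of_agr (h2.symm.mono (by omega)))
            rw [← h2 k (by omega)] at h7
            omega
          · exact h6
          · exfalso
            by_cases hvs' : v = s'
            · rw [hvs', hvs k (by omega)] at h6
              omega
            · refine h3 s' (by omega) (by omega) ⟨k, ?_, ?_, ?_⟩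
              · rw [h1]; omega
              · exact (hvs.mono (by omega)).agr h5
              · rw [hvs k (by omega)]; exact h6
    by_cases hje : j ≤ e
    · left
      have h5 := h4 j (le_refl j) hje
      refine ⟨j, hje, h1, h5, fun x hx hl => ?_⟩
      by_cases hxu : x ≤ u
      · refine h3 x (by omega) hx ?_
        rw [h1]; exact hl
      · exact not_lft H.stab (by omega) h5 hje hl
    · right
      have h5 := h4 e (by omega) (le_refl e)
      have h6 : Dim.vis d g u e := h5.of_agr (h2.symm.mono (by omega))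
      have h7 := h2 e (by omega)
      refine ⟨h5, ?_, by omega⟩
      by_cases h8 : d.O v e = 2
      · exfalso
        have h9 := hE s' hEs hs
        have hne : v ≠ s' := by
          intro hc
          rw [hc] at h8
          omega
        refine h3 s' (by omega) (by omega) ⟨e, ?_, hvs.agr h5, ?_⟩
        · rw [h1]; omega
        · rw [h9, h8]; omega
      · have h9 : R u := (H.res u).2 ⟨by omega, h6, by rw [← h7]; exact h8⟩
        have h10 := hE u (by omega) h9
        rw [h7, h10]

include hS hT H in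
theorem Rsp.const {E : ℕ} (hE : ∀ s, E ≤ s → R s → d.O s e = 1) {s' s : ℕ} (hp : pv R s' s)
    (hEs : E ≤ s') {v : ℕ} (hv : v < M s') (h : Rt d g e v) : t s v = t s' v := by
  have hM := H.ltM s' s hp
  have hM1 := H.Mle s' hp.1
  have hM2 := H.Mle s hp.2.1
  refine Nat.eq_of_testBit_eq fun u => ?_
  by_contra hc
  have h1 := H.chg s' s v u hp hv hc
  have h2 : 1 ≤ u ∧ d.pa u = v := by
    by_cases h3 : (t s v).testBit u = true
    · exact H.val s v hp.2.1 (by omega) u h3
    · refine H.val s' v hp.1 hv u ?_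
      simp only [Bool.not_eq_true] at h3
      rw [h3] at hc
      by_contra hc'
      simp only [Bool.not_eq_true] at hc'
      exact hc hc'.symm
  have h3 := (rt_child hS hT h h2.1 h2.2).1
  have h4 := H.rt_le hp h3 (by omega)
  have h5 := H.evt s' s u hp (by omega) h4 h3 (by rw [h2.2]; exact hc)
  have h6 := hE s (by have := hp.2.2.1; omega) hp.2.1
  omega

/-- the stage `s` is large enough for the node `v` -/
def Good (R : ℕ → Prop) (E v s : ℕ) : Prop :=
  ∃ s' s'', pv R s'' s' ∧ pv R s' s ∧ v ≤ s'' ∧ E ≤ s''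

include H in
theorem Rsp.exists_good (E v n : ℕ) : ∃ s, n ≤ s ∧ Good R E v s := by
  obtain ⟨a, h1, h2⟩ := H.inf (E + v + n)
  obtain ⟨b, h3, h4⟩ := H.inf (a + 1)
  obtain ⟨c, h5, h6⟩ := H.inf (b + 1)
  obtain ⟨s', h7, h8⟩ := exists_pv h4 h6 (by omega)
  obtain ⟨s'', h9, h10⟩ := exists_pv h2 h7.1 (by omega)
  exact ⟨c, by omega, s', s'', h9, h7, by omega, by omega⟩

include hS hT H in
theorem Rsp.good_rt {E : ℕ} (hE : ∀ s, E ≤ s → R s → d.O s e = 1) {v s : ℕ}
    (hv : ¬ UU d g e v) (hg : Good R E v s) : Rt d g e v ∨ t s v = 0 := by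
  obtain ⟨s', s'', h1, h2, h3, h4⟩ := hg
  have h5 := h1.2.2.1
  have hM := H.ltM s' s h2
  rcases H.tri hE h2.1 (by omega) (show v ≤ s' by omega) with h6 | h6 | h6
  · right
    refine H.dead_zero hS hT h2.2.1 (le_of_lt hM) v ?_ (by omega) h6
    by_contra hc
    have : v = 0 := by omega
    subst this
    exact hv ⟨0, Nat.zero_le _, pers_zero hS⟩
  · exact (hv h6).elim
  · exact Or.inl h6

include hS hT H in
theorem Rsp.good_const {E : ℕ} (hE : ∀ s, E ≤ s → R s → d.O s e = 1) {v s1 : ℕ}
    (hv : ¬ UU d g e v) (hg : Good R E v s1) (s2 : ℕ) (hs : R s2) (h12 : s1 ≤ s2) :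
    t s2 v = t s1 v := by
  induction s2 using Nat.strong_induction_on with
  | _ s2 ih =>
    by_cases h : s2 = s1
    · rw [h]
    · have hs1 : R s1 := by
        obtain ⟨_, _, _, h2, _⟩ := hg
        exact h2.2.1
      obtain ⟨s0, h1, h2⟩ := exists_pv hs1 hs (by omega)
      rw [← ih s0 h1.2.2.1 h1.1 h2]
      have hg0 : Good R E v s0 := by
        obtain ⟨s', s'', h3, h4, h5, h6⟩ := hg
        by_cases h7 : s0 = s1
        · rw [h7]; exact ⟨s', s'', h3, h4, h5, h6⟩
        · obtain ⟨a, h8, h9⟩ := exists_pv h4.2.1 h1.1 (by omega)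
          obtain ⟨b, h10, h11⟩ := exists_pv h4.1 h8.1 (by have := h4.2.2.1; omega)
          have := h3.2.2.1
          exact ⟨a, b, h10, h8, by omega, by omega⟩
      have hg2 : Good R E v s2 := by
        obtain ⟨s', s'', h3, h4, h5, h6⟩ := hg0
        have := h3.2.2.1
        exact ⟨s0, s', h4, h1, by omega, by omega⟩
      have hEs0 : E ≤ s0 ∧ v < M s0 := by
        obtain ⟨s', s'', h3, h4, h5, h6⟩ := hg0
        have := h3.2.2.1
        have := H.ltM _ _ h4
        have := H.Mle _ h1.1
        have := h4.2.2.1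
        exact ⟨by omega, by omega⟩
      rcases H.good_rt hS hT hE hv hg0 with h3 | h3
      · exact H.const hS hT hE h1 hEs0.1 hEs0.2 h3
      · rcases H.good_rt hS hT hE hv hg2 with h4 | h4
        · exact H.const hS hT hE h1 hEs0.1 hEs0.2 h4
        · rw [h3, h4]

theorem exists_bits (P : ℕ → Prop) (K : ℕ) (hK : ∀ u, P u → u < K) :
    ∃ X : ℕ, ∀ u, X.testBit u = true ↔ P u := by
  classical
  have key : ∀ n, ∃ X : ℕ, ∀ u, X.testBit u = true ↔ (u < n ∧ P u) := by
    intro n
    induction n with
    | zero => exact ⟨0, fun u => by simp⟩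
    | succ n ih =>
      obtain ⟨X, hX⟩ := ih
      by_cases h : P n
      · refine ⟨X ^^^ 2 ^ n, fun u => ?_⟩
        rw [Nat.testBit_xor, Nat.testBit_two_pow]
        by_cases h1 : n = u
        · subst h1
          have h2 : X.testBit n = false := by
            by_contra hc
            simp only [Bool.not_eq_false] at hc
            have := ((hX n).1 hc).1
            omega
          simp [h2, h]
        · have h2 : u < n + 1 ↔ u < n := by omega
          simp [h1, hX u, h2]
      · refine ⟨X, fun u => ?_⟩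
        rw [hX u]
        constructor
        · rintro ⟨h1, h2⟩
          exact ⟨by omega, h2⟩
        · rintro ⟨h1, h2⟩
          refine ⟨?_, h2⟩
          by_contra hc
          have : u = n := by omega
          rw [this] at h2
          exact h h2
  obtain ⟨X, hX⟩ := key K
  exact ⟨X, fun u => (hX u).trans ⟨fun h => h.2, fun h => ⟨hK u h, h⟩⟩⟩

include hS hT in
theorem uu_pa {v : ℕ} (h : UU d g e v) (hv : 1 ≤ v) : UU d g e (d.pa v) := by
  obtain ⟨j, hj, h1⟩ := h
  by_cases hj0 : j = 0
  · subst hj0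
    obtain ⟨h2, _⟩ := hS.child hT hv h1.1
    omega
  · obtain ⟨_, h2⟩ := h1.pa hS hT (by omega)
    have := hT.lt j (by omega)
    exact ⟨pr j, by omega, h2⟩

include hS hT H in
/-- the limit flow -/
theorem Rsp.main {E : ℕ} (hER : R E) (hE : ∀ s, E ≤ s → R s → d.O s e = 1) :
    ∃ F : ℕ → ℕ, Flow d.pa F ∧ ∀ v, ¬ UU d g e v → ∀ s, Good R E v s → t s v = F v := by
  classical
  choose gs hgs1 hgs2 using fun v => H.exists_good E v 0
  let tn : ℕ → ℕ := fun v => t (gs v) v
  have htn : ∀ v, ¬ UU d g e v → ∀ s, Good R E v s → t s v = tn v := by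
    intro v hv s hs
    have hR : ∀ {s}, Good R E v s → R s := by
      rintro s ⟨_, _, _, h2, _⟩
      exact h2.2.1
    rcases Nat.le_total s (gs v) with h | h
    · exact (H.good_const hS hT hE hv hs _ (hR (hgs2 v)) h).symm
    · exact H.good_const hS hT hE hv (hgs2 v) _ (hR hs) h
  -- the bound for the children of true nodes
  have hbd : ∀ b, 1 ≤ b → ¬ UU d g e b → UU d g e (d.pa b) → Dim.par (tn b) = true →
      (t E (d.pa b)).testBit b = true := by
    intro b hb hU hU' hpar
    obtain ⟨s, hs1, hs2⟩ := H.exists_good E b E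
    have hRt : Rt d g e b := by
      rcases H.good_rt hS hT hE hU hs2 with h | h
      · exact h
      · rw [htn b hU s hs2] at h
        rw [h] at hpar
        exact Bool.noConfusion hpar
    obtain ⟨s', s'', h1, h2, h3, h4⟩ := id hs2
    have hM := H.ltM _ _ h2
    have := h1.2.2.1
    have h5 := H.par s b h2.2.1 hb (by omega)
    rw [htn b hU s hs2, hpar] at h5
    refine H.back hER hRt hU' (s' := s) ?_ s h2.2.1 hs1 (le_refl s) h5
    intro x hx1 _ hx2 _ hx3
    have := hE x (by omega) hx2
    omega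
  -- a bound for the true nodes
  obtain ⟨K, hK⟩ : ∃ K, ∀ v, UU d g e v → v < K := ⟨M E, fun v hv => H.U E v hER hv⟩
  have hstep : ∀ k, ∃ F : ℕ → ℕ, (∀ v, ¬ UU d g e v → F v = tn v) ∧
      ∀ v, UU d g e v → K ≤ v + k → ∀ u, (F v).testBit u = true ↔
        (1 ≤ u ∧ d.pa u = v ∧ Dim.par (F u) = true) := by
    intro k
    induction k with
    | zero =>
      refine ⟨tn, fun v _ => rfl, fun v hv hk => ?_⟩
      have := hK v hv
      omega
    | succ k ih =>
      obtain ⟨F, h1, h2⟩ := ih
      by_cases hv : UU d g e (K - (k + 1)) ∧ k + 1 ≤ K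
      · set v := K - (k + 1) with hvdef
        obtain ⟨X, hX⟩ := exists_bits
          (fun u => 1 ≤ u ∧ d.pa u = v ∧ Dim.par (F u) = true) (K + t E v) (by
            rintro u ⟨h3, h4, h5⟩
            by_cases h6 : UU d g e u
            · have := hK u h6
              omega
            · rw [h1 u h6] at h5
              have := testBit_lt (hbd u h3 h6 (by rw [h4]; exact hv.1) h5)
              rw [h4] at this
              omega)
        refine ⟨Function.update F v X, fun w hw => ?_, fun w hw hk u => ?_⟩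
        · have : w ≠ v := by
            rintro rfl
            exact hw hv.1
          rw [Function.update_of_ne this]
          exact h1 w hw
        · by_cases hwv : w = v
          · rw [hwv, Function.update_self, hX]
            refine and_congr_right fun h3 => and_congr_right fun h4 => ?_
            have := hS.pa_lt hT h3
            rw [Function.update_of_ne (by omega : u ≠ v)]
          · rw [Function.update_of_ne hwv, h2 w hw (by omega)]
            refine and_congr_right fun h3 => and_congr_right fun h4 => ?_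
            have := hS.pa_lt hT h3
            rw [Function.update_of_ne (by omega : u ≠ v)]
      · refine ⟨F, h1, fun w hw hk u => ?_⟩
        by_cases hwk : K ≤ w + k
        · exact h2 w hw hwk u
        · have := hK w hw
          have h3 : w = K - (k + 1) := by omega
          rw [h3] at hw
          exact (hv ⟨hw, by omega⟩).elim
  obtain ⟨F, h1, h2⟩ := hstep K
  refine ⟨F, ⟨?_, ?_⟩, fun v hv s hs => by rw [h1 v hv]; exact htn v hv s hs⟩
  · intro v u hu
    by_cases hv : UU d g e v
    · obtain ⟨h3, h4, _⟩ := (h2 v hv (by omega) u).1 hu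
      exact ⟨h3, h4⟩
    · rw [h1 v hv] at hu
      obtain ⟨s', s'', h3, h4, h5, h6⟩ := hgs2 v
      have hM := H.ltM _ _ h4
      have := h3.2.2.1
      exact H.val _ v h4.2.1 (by omega) u hu
  · intro u hu
    by_cases hv : UU d g e (d.pa u)
    · by_cases h3 : Dim.par (F u) = true
      · rw [h3]
        exact (h2 _ hv (by omega) u).2 ⟨hu, rfl, h3⟩
      · have h4 : ¬ (F (d.pa u)).testBit u = true := fun h =>
          h3 ((h2 _ hv (by omega) u).1 h).2.2
        simp only [Bool.not_eq_true] at h3 h4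
        rw [h3, h4]
    · have hu' : ¬ UU d g e u := fun h => hv (uu_pa hS hT h hu)
      obtain ⟨s, _, hs⟩ := H.exists_good E u 0
      have hs' : Good R E (d.pa u) s := by
        obtain ⟨s', s'', h3, h4, h5, h6⟩ := hs
        have := hS.pa_lt hT hu
        exact ⟨s', s'', h3, h4, by omega, h6⟩
      rw [h1 _ hv, h1 _ hu', ← htn _ hv s hs', ← htn _ hu' s hs]
      obtain ⟨s', s'', h3, h4, h5, h6⟩ := hs
      have hM := H.ltM _ _ h4
      have := h3.2.2.1
      exact H.par s u h4.2.1 hu (by omega)

end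

end Pool.Agent.Helper941.Dim
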