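import Mathlib
import Pool.Agent.Helper941.Dim.Tree2
import Pool.Agent.Helper941.Dim.Bridge

set_option autoImplicit false
set_option maxHeartbeats 400000

namespace Pool.Agent.Helper941.Dim

open Encodable Denumerable Nat.Partrec Pool.Agent.Helper941 Pool.Agent.Helper941.IsoProb
open Pool.Agent.Helper941.Zeta

variable {α : Type} [Primcodable α]

theorem Delta0.and {n : ℕ} {P Q : α → Prop} (h : Delta0 n P) (h' : Delta0 n Q) :
    Delta0 n fun a => P a ∧ Q a := ⟨h.1.and h'.1, Pi0.and h.2 h'.2⟩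

theorem Delta0.or {n : ℕ} {P Q : α → Prop} (h : Delta0 n P) (h' : Delta0 n Q) :
    Delta0 n fun a => P a ∨ Q a := ⟨h.1.or h'.1, Pi0.or h.2 h'.2⟩

theorem Delta0.not {n : ℕ} {P : α → Prop} (h : Delta0 n P) : Delta0 n fun a => ¬ P a :=
  ⟨Pi0.not h.2, Sigma0.not h.1⟩

theorem Delta0.comp {β : Type} [Primcodable β] {n : ℕ} {P : β → Prop} (h : Delta0 n P)
    {f : α → β} (hf : Computable f) : Delta0 n fun a => P (f a) :=
  ⟨Sigma0.comp h.1 hf, Pi0.comp h.2 hf⟩

theorem Delta0.bex {n : ℕ} {P : α × ℕ → Prop} (h : Delta0 n P) {f : α → ℕ}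
    (hf : Computable f) : Delta0 n fun a => ∃ y < f a, P (a, y) :=
  ⟨Sigma0.bex h.1 hf, Pi0.bex h.2 hf⟩

theorem Delta0.of_comp {n : ℕ} {P : α → Prop} (h : ComputablePred P) : Delta0 n P :=
  ⟨h.sigma, h.pi⟩

theorem Delta0.of_iff {n : ℕ} {P Q : α → Prop} (h : Delta0 n P) (e : ∀ a, Q a ↔ P a) :
    Delta0 n Q := ⟨Sigma0.of_iff h.1 e, Pi0.of_iff h.2 e⟩

theorem Delta0.of_pi {n : ℕ} {P : α → Prop} (h : Pi0 n P) : Delta0 (n + 1) P :=
  ⟨Pi0.toSigma h, Pi0.succ h⟩

/-- the arithmetical description of the true nodes -/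
def PN (d : Dat) (v : ℕ) : Prop :=
  (∀ s, v < s → ¬ lft d s v (d.J v - 1)) ∧ ∀ N, ∃ s, N ≤ s ∧ agr d v s (d.J v - 1)

theorem pers_iff {d : Dat} {g : ℕ → ℕ} (hg : TP d g) {v j : ℕ} (hj : d.J v = j + 1) :
    Pers d g v j ↔ PN d v := by
  have hj' : d.J v - 1 = j := by omega
  unfold PN
  rw [hj']
  constructor
  · rintro ⟨_, h2, h3⟩
    refine ⟨h3, fun N => ?_⟩
    obtain ⟨s, h4, h5⟩ := hg.inf j N
    exact ⟨s, h4, h2.agr h5⟩
  · rintro ⟨h1, h2⟩
    refine ⟨hj, ?_, h1⟩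
    have key : ∀ i, i ≤ j → vis d g v i := by
      intro i
      induction i with
      | zero => intro _ k hk; omega
      | succ i ih =>
        intro hi k hk
        have h3 := ih (by omega)
        by_cases hki : k < i
        · exact h3 k hki
        · have hk' : k = i := by omega
          subst hk'
          rcases lt_trichotomy (d.O v k) (g k) with h6 | h6 | h6
          · exfalso
            obtain ⟨N, hN⟩ := hg.left k
            obtain ⟨s, h7, h8⟩ := h2 N
            have h9 := hN s h7 (h3.of_agr (h8.symm.mono (by omega)))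
            rw [← h8 k (by omega)] at h9
            omega
          · exact h6
          · exfalso
            obtain ⟨s, h7, h8⟩ := hg.inf (k + 1) (v + 1)
            refine h1 s (by omega) ⟨k, by omega, (h8.mono (by omega)).agr h3, ?_⟩
            rw [h8 k (by omega)]
            exact h6
    exact key j (le_refl j)

theorem p_agr_con {T : ℕ → Prop} (hT : ComputablePred T) {pr : ℕ → ℕ} (hpr : Computable pr)
    {s s' e : α → ℕ} (hs : Computable s) (hs' : Computable s') (he : Computable e) :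
    ComputablePred fun a => agr (con T pr) (s a) (s' a) (e a) := by
  unfold agr
  exact p_ball he (p_eq (con_O hT hpr (c_l hs) c_r) (con_O hT hpr (c_l hs') c_r))

theorem p_lft_con {T : ℕ → Prop} (hT : ComputablePred T) {pr : ℕ → ℕ} (hpr : Computable pr)
    {s s' e : α → ℕ} (hs : Computable s) (hs' : Computable s') (he : Computable e) :
    ComputablePred fun a => lft (con T pr) (s a) (s' a) (e a) := by
  unfold lft
  exact p_bex he (p_and (p_agr_con hT hpr (c_l hs) (c_l hs') c_r)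
    (p_lt (con_O hT hpr (c_l hs) c_r) (con_O hT hpr (c_l hs') c_r)))

theorem pi_PN {T : ℕ → Prop} (hT : ComputablePred T) {pr : ℕ → ℕ} (hpr : Computable pr) :
    Pi0 2 (PN (con T pr)) := by
  have hJ : Computable fun p : ℕ × ℕ => (con T pr).J p.1 - 1 :=
    c_sub (con_J hT hpr (c_fst c_id)) (c_const 1)
  have h1 : Pi0 1 fun v => ∀ s, v < s → ¬ lft (con T pr) s v ((con T pr).J v - 1) :=
    Pi0.all (n := 0) (P := fun p : ℕ × ℕ => p.1 < p.2 →
      ¬ lft (con T pr) p.2 p.1 ((con T pr).J p.1 - 1)) (ComputablePred.pi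
        (p_imp (p_lt (c_fst c_id) (c_snd c_id))
          (p_not (p_lft_con hT hpr (c_snd c_id) (c_fst c_id) hJ))))
  have hJ' : Computable fun p : (ℕ × ℕ) × ℕ => (con T pr).J p.1.1 - 1 :=
    c_sub (con_J hT hpr (c_fst (c_fst c_id))) (c_const 1)
  have h2 : Sigma0 1 fun p : ℕ × ℕ => ∃ s, p.2 ≤ s ∧
      agr (con T pr) p.1 s ((con T pr).J p.1 - 1) :=
    Sigma0.ex (n := 0) (P := fun q : (ℕ × ℕ) × ℕ => q.1.2 ≤ q.2 ∧
      agr (con T pr) q.1.1 q.2 ((con T pr).J q.1.1 - 1)) (ComputablePred.sigma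
        (p_and (p_le (c_snd (c_fst c_id)) (c_snd c_id))
          (p_agr_con hT hpr (c_fst (c_fst c_id)) (c_snd c_id) hJ')))
  have h3 : Pi0 2 fun v => ∀ N, ∃ s, N ≤ s ∧ agr (con T pr) v s ((con T pr).J v - 1) :=
    Pi0.all (n := 1) (P := fun p : ℕ × ℕ => ∃ s, p.2 ≤ s ∧
      agr (con T pr) p.1 s ((con T pr).J p.1 - 1)) (Sigma0.toPi h2)
  exact Pi0.and (Pi0.succ h1) h3

/-- the data of the structure for the tree of level `K` -/
noncomputable def dK (K : ℕ) : Dat := con (TT K) prn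

noncomputable def pK (K : ℕ) : ℕ → ℕ := (dK K).pa

theorem c_pK (K : ℕ) : Computable (pK K) := con_pa (p_TT K) c_prn

/-- being a true node with a label on the path -/
def Ch (K v : ℕ) : Prop := (dK K).J v ≠ 0 ∧ OnP K ((dK K).J v - 1) ∧ PN (dK K) v

theorem pi_Ch {K : ℕ} (hK : 1 ≤ K) : Pi0 (K + 1) (Ch K) := by
  have h1 : Pi0 (K + 1) fun v => (dK K).J v ≠ 0 :=
    ComputablePred.pi (p_not (p_eq (con_J (p_TT K) c_prn c_id) (c_const 0)))
  have h2 : Pi0 (K + 1) fun v => OnP K ((dK K).J v - 1) :=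
    Pi0.comp (pi_onP K) (c_sub (con_J (p_TT K) c_prn c_id) (c_const 1))
  have h3 : Pi0 (K + 1) (PN (dK K)) := Pi0.lift (pi_PN (p_TT K) c_prn) (by omega)
  exact Pi0.and h1 (Pi0.and h2 h3)

theorem two_pow_bit {a u : ℕ} : (2 ^ a).testBit u = true ↔ u = a := by
  rw [Nat.testBit_two_pow]
  simp [eq_comm]

/-- the flow along the path -/
theorem exists_flip {K : ℕ} (hK : 1 ≤ K) : ∃ t : ℕ → ℕ, Flow (pK K) t ∧ par (t 0) = true ∧
    Delta0 (K + 2) fun p : ℕ × ℕ => t p.1 = p.2 := by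
  classical
  have hS : Spec (TT K) prn (dK K) := con_spec (TT K) prn
  have hT := th_TT K
  obtain ⟨g, hg⟩ := exists_tp (d := dK K) hS.O_le
  choose vi hvi using fun i => pers_exists hS hg (nod (pth K) i) (pth_T K i)
  have hlen : ∀ i, len ((dK K).J (vi i) - 1) = i := by
    intro i
    rw [(hvi i).1, Nat.add_sub_cancel, len_nod]
  have hinj : ∀ i j, vi i = vi j → i = j := by
    intro i j h
    rw [← hlen i, ← hlen j, h]
  have hpa : ∀ i, 1 ≤ vi (i + 1) ∧ (dK K).pa (vi (i + 1)) = vi i := by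
    intro i
    obtain ⟨h1, h2⟩ := (hvi (i + 1)).pa hS hT (nod_pos _ i)
    rw [prn_nod] at h2
    exact ⟨h1, h2.uniq hS hT hg (hvi i)⟩
  have h0 : vi 0 = 0 := (hvi 0).uniq hS hT hg (pers_zero hS)
  have hCh : ∀ v, Ch K v ↔ ∃ i, v = vi i := by
    intro v
    constructor
    · rintro ⟨h1, h2, h3⟩
      refine ⟨len ((dK K).J v - 1), ?_⟩
      have h4 := (pers_iff hg (show (dK K).J v = ((dK K).J v - 1) + 1 by omega)).2 h3
      have h5 := hvi (len ((dK K).J v - 1))
      rw [← show (dK K).J v - 1 = nod (pth K) (len ((dK K).J v - 1)) from h2] at h5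
      exact h4.uniq hS hT hg h5
    · rintro ⟨i, rfl⟩
      refine ⟨by rw [(hvi i).1]; omega, ?_, (pers_iff hg (hvi i).1).1 (hvi i)⟩
      unfold OnP
      rw [hlen, (hvi i).1, Nat.add_sub_cancel]
  let t : ℕ → ℕ := fun v => if Ch K v then 2 ^ vi (len ((dK K).J v - 1) + 1) else 0
  have ht1 : ∀ i, t (vi i) = 2 ^ vi (i + 1) := by
    intro i
    show (if Ch K (vi i) then _ else _) = _
    rw [if_pos ((hCh _).2 ⟨i, rfl⟩), hlen]
  have ht2 : ∀ v, ¬ Ch K v → t v = 0 := fun v hv => if_neg hv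
  refine ⟨t, ⟨?_, ?_⟩, ?_, ?_⟩
  · intro v u hu
    by_cases hv : Ch K v
    · obtain ⟨i, rfl⟩ := (hCh v).1 hv
      rw [ht1, two_pow_bit] at hu
      rw [hu]
      exact hpa i
    · rw [ht2 v hv] at hu
      simp at hu
  · intro u hu
    by_cases hv : Ch K u
    · obtain ⟨i, rfl⟩ := (hCh u).1 hv
      cases i with
      | zero => omega
      | succ i =>
        have h1 : pK K (vi (i + 1)) = vi i := (hpa i).2
        rw [h1, ht1, ht1, par_two_pow]
        exact two_pow_bit.2 rfl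
    · rw [ht2 u hv]
      by_contra hc
      have h1 : (t (pK K u)).testBit u = true := by
        by_contra hc'
        simp only [Bool.not_eq_true] at hc'
        exact hc (by rw [hc']; rfl)
      by_cases hv' : Ch K (pK K u)
      · obtain ⟨i, hi⟩ := (hCh _).1 hv'
        rw [hi, ht1, two_pow_bit] at h1
        exact hv ((hCh u).2 ⟨i + 1, h1⟩)
      · rw [ht2 _ hv'] at h1
        simp at h1
  · have := ht1 0
    rw [h0] at this
    rw [this, par_two_pow]
  · have hC : Delta0 (K + 2) (Ch K) := Delta0.of_pi (pi_Ch hK)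
    have hC1 : Delta0 (K + 2) fun p : ℕ × ℕ => Ch K p.1 := Delta0.comp hC (c_fst c_id)
    have hC2 : Delta0 (K + 2) fun q : (ℕ × ℕ) × ℕ => Ch K q.2 := Delta0.comp hC (c_snd c_id)
    have hb : Delta0 (K + 2) fun q : (ℕ × ℕ) × ℕ =>
        (q.1.2 = 2 ^ q.2 ∧ 1 ≤ q.2 ∧ pK K q.2 = q.1.1) ∧ Ch K q.2 := by
      refine Delta0.and (Delta0.of_comp ?_) hC2
      exact p_and (p_eq (c_snd (c_fst c_id)) (c_pow (c_snd c_id))) (p_and
        (p_le (c_const 1) (c_snd c_id)) (p_eq ((c_pK K).comp (c_snd c_id))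
          (c_fst (c_fst c_id))))
    have hb' : Delta0 (K + 2) fun p : ℕ × ℕ => ∃ u < p.2,
        (p.2 = 2 ^ u ∧ 1 ≤ u ∧ pK K u = p.1) ∧ Ch K u := Delta0.bex hb (c_snd c_id)
    have h0' : Delta0 (K + 2) fun p : ℕ × ℕ => p.2 = 0 :=
      Delta0.of_comp (p_eq (c_snd c_id) (c_const 0))
    refine Delta0.of_iff (Delta0.or (Delta0.and hC1 hb') (Delta0.and (Delta0.not hC1) h0'))
      fun p => ?_
    by_cases hv : Ch K p.1
    · obtain ⟨i, hi⟩ := (hCh _).1 hv
      rw [hi, ht1]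
      rw [hi] at hv
      constructor
      · intro h
        refine Or.inl ⟨hv, vi (i + 1), ?_, ⟨h.symm, (hpa i).1, (hpa i).2⟩,
          (hCh _).2 ⟨i + 1, rfl⟩⟩
        rw [← h]
        exact Nat.lt_two_pow_self
      · rintro (⟨_, u, _, ⟨h1, h2, h3⟩, h4⟩ | ⟨h1, _⟩)
        · obtain ⟨k, rfl⟩ := (hCh _).1 h4
          cases k with
          | zero => omega
          | succ k =>
            have h5 : vi k = vi i := by rw [← h3]; exact (hpa k).2.symm
            rw [h1, hinj _ _ h5]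
        · exact (h1 hv).elim
    · rw [ht2 _ hv]
      constructor
      · intro h
        exact Or.inr ⟨hv, h.symm⟩
      · rintro (⟨h1, _⟩ | ⟨_, h1⟩)
        · exact (hv h1).elim
        · exact h1.symm

/-- the flip is an isomorphism with a `Δ⁰_{K+2}` graph -/
theorem flip_iso {K : ℕ} (hK : 1 ≤ K) (b : Bool) : ∃ f : ℕ ≃ ℕ,
    IsIso (As (pK K) b) (As (pK K) (!b)) f ∧ DeltaFun (K + 2) f := by
  obtain ⟨t, hF, h0, hD⟩ := exists_flip hK
  have hC : CIso (pK K) b (As (pK K) (!b)) fun p => idx (pK K) (sh t p) := by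
    refine ⟨fun i p q hp hq => ?_, fun p q hp hq h => ?_, fun z => ?_⟩
    · rw [sh_rel hF, h0]
      have : (true ^^ b) = !b := by cases b <;> rfl
      rw [this]
      show _ ↔ Rel (pK K) (!b) i (el (pK K) (idx (pK K) (sh t p)))
        (el (pK K) (idx (pK K) (sh t q)))
      rw [el_idx (sh_valid hF hp), el_idx (sh_valid hF hq)]
    · have h1 : el (pK K) (idx (pK K) (sh t p)) = el (pK K) (idx (pK K) (sh t q)) := by
        rw [show idx (pK K) (sh t p) = idx (pK K) (sh t q) from h]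
      rw [el_idx (sh_valid hF hp), el_idx (sh_valid hF hq)] at h1
      rw [← sh_sh t p, h1, sh_sh]
    · refine ⟨sh t (el (pK K) z), sh_valid hF (el_valid _ z), ?_⟩
      show idx (pK K) (sh t (sh t (el (pK K) z))) = z
      rw [sh_sh, idx_el]
  obtain ⟨f, h1, h2⟩ := hC.toIso
  refine ⟨f, h1, ?_⟩
  have hel : Computable (el (pK K)) := c_el (c_pK K)
  have e1 : Computable fun p : ℕ × ℕ => el (pK K) p.1 := hel.comp (c_fst c_id)
  have e2 : Computable fun p : ℕ × ℕ => el (pK K) p.2 := hel.comp (c_snd c_id)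
  have h3 : Delta0 (K + 2) fun p : ℕ × ℕ => t (el (pK K) p.1).unpair.1 =
      (el (pK K) p.2).unpair.2 ^^^ (el (pK K) p.1).unpair.2 :=
    Delta0.comp hD (f := fun p : ℕ × ℕ => ((el (pK K) p.1).unpair.1,
      (el (pK K) p.2).unpair.2 ^^^ (el (pK K) p.1).unpair.2))
      (c_pair (c_up1 e1) (c_xor (c_up2 e2) (c_up2 e1)))
  have h4 : Delta0 (K + 2) fun p : ℕ × ℕ =>
      (el (pK K) p.1).unpair.1 = (el (pK K) p.2).unpair.1 :=
    Delta0.of_comp (p_eq (c_up1 e1) (c_up1 e2))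
  refine (del_iff _ _).2 (Delta0.of_iff (Delta0.and h4 h3) fun p => ?_)
  rw [h2]
  constructor
  · intro h
    have h5 : el (pK K) p.2 = sh t (el (pK K) p.1) := by
      rw [← h, el_idx (sh_valid hF (el_valid _ _))]
    rw [h5, sh_fst, sh_snd]
    refine ⟨rfl, ?_⟩
    rw [Nat.xor_comm (el (pK K) p.1).unpair.2, Nat.xor_assoc, Nat.xor_self, Nat.xor_zero]
  · rintro ⟨h5, h6⟩
    have h7 : sh t (el (pK K) p.1) = el (pK K) p.2 := by
      refine unpair_inj ?_ ?_
      · rw [sh_fst, h5]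
      · rw [sh_snd, h6, Nat.xor_comm (el (pK K) p.2).unpair.2, ← Nat.xor_assoc, Nat.xor_self,
          Nat.zero_xor]
    rw [h7, idx_el]

end Pool.Agent.Helper941.Dim
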