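import Mathlib
import Pool.Agent.Helper941.Dim.Flip

set_option autoImplicit false
set_option maxHeartbeats 400000

namespace Pool.Agent.Helper941.Dim

open Encodable Denumerable Nat.Partrec Pool.Agent.Helper941 Pool.Agent.Helper941.IsoProb
open Pool.Agent.Helper941.Zeta

/-- the labels of a chain of nodes along a flow form the path -/
theorem chain_label {K : ℕ} {t : ℕ → ℕ} (hF : Flow (pK K) t) {a : ℕ → ℕ} (h0 : a 0 = 0)
    (h1 : ∀ k, (t (a k)).testBit (a (k + 1)) = true) (k : ℕ) :
    (dK K).J (a k) = nod (pth K) k + 1 := by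
  have hS : Spec (TT K) prn (dK K) := con_spec (TT K) prn
  have hT := th_TT K
  have hp : ∀ k, 1 ≤ a (k + 1) ∧ (dK K).pa (a (k + 1)) = a k := fun k => hF.child _ _ (h1 k)
  have hJ : ∀ k, (dK K).J (a (k + 1)) ≠ 0 := by
    intro k hc
    obtain ⟨h2, h3⟩ := hp (k + 1)
    by_cases h4 : (dK K).J (a (k + 1 + 1)) = 0
    · have h5 := hS.leaf h2 h4
      have := (hp k).1
      omega
    · obtain ⟨j, hj⟩ : ∃ j, (dK K).J (a (k + 1 + 1)) = j + 1 :=
        ⟨(dK K).J (a (k + 1 + 1)) - 1, by omega⟩
      obtain ⟨_, _, _, h5, _⟩ := hS.child hT h2 hj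
      have := h5.1
      rw [h3, hc] at this
      omega
  have hc : ∀ k, 1 ≤ (dK K).J (a (k + 1)) - 1 ∧ TT K ((dK K).J (a (k + 1)) - 1) ∧
      prn ((dK K).J (a (k + 1)) - 1) = (dK K).J (a k) - 1 := by
    intro k
    have h2 := hJ k
    obtain ⟨h3, h4, _, h5, _⟩ := hS.child hT (hp k).1
      (show (dK K).J (a (k + 1)) = ((dK K).J (a (k + 1)) - 1) + 1 by omega)
    refine ⟨h3, h4, ?_⟩
    have := h5.1
    rw [(hp k).2] at this
    omega
  have hl0 : (dK K).J (a 0) - 1 = 0 := by rw [h0, hS.zero.1]
  have key := path_unique (K := K) (l := fun k => (dK K).J (a k) - 1) hl0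
    (fun k => (hc k).1) (fun k => (hc k).2.2) (fun k => by
      cases k with
      | zero =>
        show TT K ((dK K).J (a 0) - 1)
        rw [hl0]
        exact tt_zero K
      | succ k => exact (hc k).2.1) k
  have key' : (dK K).J (a k) - 1 = nod (pth K) k := key
  have hne : (dK K).J (a k) ≠ 0 := by
    cases k with
    | zero => rw [h0, hS.zero.1]; omega
    | succ k => exact hJ k
  omega

/-- no isomorphism between the two structures is `Σ⁰_{K+1}` -/
theorem lower {K : ℕ} {f : ℕ ≃ ℕ} (hf : IsIso (As (pK K) false) (As (pK K) true) f) :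
    ¬ Sigma0 (K + 1) fun p : ℕ × ℕ => f p.1 = p.2 := by
  intro hs
  have hS : Spec (TT K) prn (dK K) := con_spec (TT K) prn
  let t : ℕ → ℕ := fun v => (el (pK K) (f (idx (pK K) (Nat.pair v 0)))).unpair.2
  have hrel : ∀ i p q, Valid (pK K) p → Valid (pK K) q → (Rel (pK K) false i p q ↔
      Rel (pK K) true i (el (pK K) (f (idx (pK K) p))) (el (pK K) (f (idx (pK K) q)))) := by
    intro i p q hp hq
    have := hf i (idx (pK K) p) (idx (pK K) q)
    unfold As at this
    rw [el_idx hp, el_idx hq] at this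
    exact this
  have hel : ∀ v, el (pK K) (f (idx (pK K) (Nat.pair v 0))) = Nat.pair v (t v) := by
    intro v
    have h1 := (hrel (Nat.pair 1 v) _ _ (valid_base _ v) (valid_base _ v)).1
      (rel_one.2 ⟨rfl, by rw [Nat.unpair_pair]⟩)
    refine unpair_inj ?_ ?_
    · rw [Nat.unpair_pair]; exact (rel_one.1 h1).2
    · rw [Nat.unpair_pair]
  have hval : ∀ v, Valid (pK K) (Nat.pair v (t v)) := fun v => by
    rw [← hel]; exact el_valid _ _
  have hF : Flow (pK K) t := by
    constructor
    · intro v u hu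
      have := hval v u
      rw [Nat.unpair_pair] at this
      exact this hu
    · intro u hu
      have h1 := (hrel (Nat.pair 3 u) (Nat.pair (pK K u) 0) (Nat.pair u 0)
        (valid_base _ _) (valid_base _ _)).1 (rel_three.2 (by
          rw [Nat.unpair_pair, Nat.unpair_pair]
          exact ⟨hu, rfl, rfl, by rw [Nat.zero_testBit]; rfl⟩))
      rw [hel, hel] at h1
      have h2 := (rel_three.1 h1).2.2.2
      rw [Nat.unpair_pair, Nat.unpair_pair] at h2
      exact h2
  have h0 : par (t 0) = true := by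
    have h1 := (hrel 0 (Nat.pair 0 0) (Nat.pair 0 0) (valid_base _ _) (valid_base _ _)).1
      (rel_zero.2 (by rw [Nat.unpair_pair]; exact ⟨rfl, rfl, rfl⟩))
    rw [hel] at h1
    have h2 := (rel_zero.1 h1).2.2
    rw [Nat.unpair_pair] at h2
    exact h2
  -- continuing odd chains
  have hnx : ∀ v, ∃ u, par (t v) = true → (t v).testBit u = true := by
    intro v
    by_cases h : par (t v) = true
    · obtain ⟨u, hu⟩ := exists_of_par h
      exact ⟨u, fun _ => hu⟩
    · exact ⟨0, fun h' => (h h').elim⟩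
  choose nx hnx using hnx
  have hodd : ∀ v u, (t v).testBit u = true → par (t u) = true := by
    intro v u hu
    obtain ⟨h1, h2⟩ := hF.child v u hu
    rw [← hF.par u h1, h2, hu]
  have hit : ∀ v, par (t v) = true → ∀ k, par (t (nx^[k] v)) = true := by
    intro v hv k
    induction k with
    | zero => exact hv
    | succ k ih =>
      rw [Function.iterate_succ_apply']
      exact hodd _ _ (hnx _ ih)
  -- the definition of the path
  have hdef : ∀ j, OnP K j ↔ ∃ w, ent w 0 = 0 ∧
      (∀ k < len j, (t (ent w k)).testBit (ent w (k + 1)) = true) ∧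
      (dK K).J (ent w (len j)) = j + 1 := by
    intro j
    constructor
    · intro hj
      have h1 : ∀ k, (t (nx^[k] 0)).testBit (nx^[k + 1] 0) = true := by
        intro k
        rw [Function.iterate_succ_apply']
        exact hnx _ (hit 0 h0 k)
      have h2 := chain_label hF (a := fun k => nx^[k] 0) rfl h1 (len j)
      obtain ⟨w, hw⟩ := exists_ent (len j + 1) fun k => nx^[k] 0
      refine ⟨w, hw 0 (by omega), fun k hk => ?_, ?_⟩
      · rw [hw k (by omega), hw (k + 1) (by omega)]
        exact h1 k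
      · rw [hw _ (by omega)]
        unfold OnP at hj
        rw [← hj] at h2
        exact h2
    · rintro ⟨w, h1, h2, h3⟩
      have h4 : ∀ k ≤ len j, par (t (ent w k)) = true := by
        intro k
        induction k with
        | zero => intro _; rw [h1]; exact h0
        | succ k ih => intro hk; exact hodd _ _ (h2 k (by omega))
      let a : ℕ → ℕ := fun k => if k ≤ len j then ent w k else nx^[k - len j] (ent w (len j))
      have ha0 : a 0 = 0 := by
        show (if 0 ≤ len j then _ else _) = _
        rw [if_pos (Nat.zero_le _), h1]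
      have ha1 : ∀ k, len j ≤ k → a k = nx^[k - len j] (ent w (len j)) := by
        intro k hk
        show (if k ≤ len j then _ else _) = _
        by_cases h5 : k ≤ len j
        · have : k = len j := by omega
          rw [if_pos h5, this, Nat.sub_self]
          rfl
        · rw [if_neg h5]
      have ha2 : ∀ k, k ≤ len j → a k = ent w k := fun k hk => if_pos hk
      have ha3 : ∀ k, (t (a k)).testBit (a (k + 1)) = true := by
        intro k
        by_cases h5 : k < len j
        · rw [ha2 k (by omega), ha2 (k + 1) (by omega)]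
          exact h2 k h5
        · rw [ha1 k (by omega), ha1 (k + 1) (by omega)]
          have h6 : k + 1 - len j = (k - len j) + 1 := by omega
          rw [h6, Function.iterate_succ_apply']
          exact hnx _ (hit _ (h4 _ (le_refl _)) _)
      have h5 := chain_label hF ha0 ha3 (len j)
      rw [ha2 _ (le_refl _), h3] at h5
      unfold OnP
      omega
  -- its complexity
  have hg : Sigma0 (K + 1) fun p : ℕ × ℕ => t p.1 = p.2 := by
    have hidx : Computable (idx (pK K)) := c_idx (c_pK K)
    have h1 : Sigma0 (K + 1) fun p : ℕ × ℕ =>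
        f (idx (pK K) (Nat.pair p.1 0)) = idx (pK K) (Nat.pair p.1 p.2) :=
      Sigma0.comp hs (f := fun p : ℕ × ℕ =>
        (idx (pK K) (Nat.pair p.1 0), idx (pK K) (Nat.pair p.1 p.2)))
        (c_pair (hidx.comp (c_npair (c_fst c_id) (c_const 0)))
          (hidx.comp (c_npair (c_fst c_id) (c_snd c_id))))
    have h2 : Sigma0 (K + 1) fun p : ℕ × ℕ => Valid (pK K) (Nat.pair p.1 p.2) :=
      ComputablePred.sigma (computablePred_comp (p_valid (c_pK K))
        (c_npair (c_fst c_id) (c_snd c_id)))
    refine Sigma0.of_iff (Sigma0.and h2 h1) fun p => ?_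
    constructor
    · intro h
      have h3 := hel p.1
      rw [h] at h3
      refine ⟨by rw [← h]; exact hval _, ?_⟩
      rw [← h3, idx_el]
    · rintro ⟨h3, h4⟩
      have h5 := hel p.1
      rw [h4, el_idx h3] at h5
      exact ((Nat.pair_eq_pair.1 h5).2).symm
  have hbit : Sigma0 (K + 1) fun p : ℕ × ℕ => (t p.1).testBit p.2 = true := by
    have h1 : Sigma0 (K + 1) fun p : ℕ × ℕ => ∃ X, t p.1 = X ∧ X.testBit p.2 = true := by
      refine Sigma0.ex (P := fun q : (ℕ × ℕ) × ℕ => t q.1.1 = q.2 ∧
        q.2.testBit q.1.2 = true) ?_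
      exact Sigma0.and (Sigma0.comp hg (f := fun q : (ℕ × ℕ) × ℕ => (q.1.1, q.2))
        (c_pair (c_fst (c_fst c_id)) (c_snd c_id)))
        (ComputablePred.sigma (p_testBit (c_snd c_id) (c_snd (c_fst c_id))))
    refine Sigma0.of_iff h1 fun p => ?_
    constructor
    · intro h
      exact ⟨_, rfl, h⟩
    · rintro ⟨X, rfl, h⟩
      exact h
  refine not_sigma_onP K ?_
  have h1 : Sigma0 (K + 1) fun j : ℕ => ∃ w, ent w 0 = 0 ∧
      (∀ k < len j, (t (ent w k)).testBit (ent w (k + 1)) = true) ∧
      (dK K).J (ent w (len j)) = j + 1 := by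
    refine Sigma0.ex (P := fun p : ℕ × ℕ => ent p.2 0 = 0 ∧
      (∀ k < len p.1, (t (ent p.2 k)).testBit (ent p.2 (k + 1)) = true) ∧
      (dK K).J (ent p.2 (len p.1)) = p.1 + 1) ?_
    have hJ : Computable fun p : ℕ × ℕ => (dK K).J (ent p.2 (len p.1)) :=
      con_J (p_TT K) c_prn (c_ent (c_snd c_id) (c_lenj (c_fst c_id)))
    have h2 : Sigma0 (K + 1) fun p : ℕ × ℕ => ∀ k < len p.1,
        (t (ent p.2 k)).testBit (ent p.2 (k + 1)) = true :=
      Sigma0.ball (P := fun q : (ℕ × ℕ) × ℕ =>
        (t (ent q.1.2 q.2)).testBit (ent q.1.2 (q.2 + 1)) = true)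
        (Sigma0.comp hbit (f := fun q : (ℕ × ℕ) × ℕ => (ent q.1.2 q.2, ent q.1.2 (q.2 + 1)))
          (c_pair (c_ent (c_snd (c_fst c_id)) (c_snd c_id))
            (c_ent (c_snd (c_fst c_id)) (c_succ (c_snd c_id))))) (c_lenj (c_fst c_id))
    exact Sigma0.and (ComputablePred.sigma (p_eq (c_ent (c_snd c_id) (c_const 0)) (c_const 0)))
      (Sigma0.and h2 (ComputablePred.sigma (p_eq hJ (c_succ (c_fst c_id)))))
  exact Sigma0.of_iff h1 hdef

end Pool.Agent.Helper941.Dim
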