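import Mathlib
import Pool.Agent.Helper941.Dim.Lower

set_option autoImplicit false
set_option maxHeartbeats 400000

namespace Pool.Agent.Helper941.Dim

open Encodable Denumerable Nat.Partrec Pool.Agent.Helper941 Pool.Agent.Helper941.IsoProb
open Pool.Agent.Helper941.Zeta

theorem IsIso.trans {A B C : Str} {f g : ℕ ≃ ℕ} (hf : IsIso A B f) (hg : IsIso B C g) :
    IsIso A C (f.trans g) := fun i x y => (hf i x y).trans (hg i _ _)

theorem IsIso.symm {A B : Str} {f : ℕ ≃ ℕ} (hf : IsIso A B f) : IsIso B A f.symm :=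
  fun i x y => by rw [hf, f.apply_symm_apply, f.apply_symm_apply]

theorem copy_as {K : ℕ} (hK : 1 ≤ K) (b : Bool) : IsCopy (As (pK K) false) (As (pK K) b) := by
  refine ⟨as_comp (c_pK K) b, ?_⟩
  cases b with
  | false => exact ⟨Equiv.refl ℕ, fun _ _ _ => Iff.rfl⟩
  | true =>
    obtain ⟨f, hf, _⟩ := flip_iso hK false
    exact ⟨f, hf⟩

theorem not_compIso (K : ℕ) : ¬ CompIso (As (pK K) false) (As (pK K) true) := by
  rintro ⟨f, hf, hc⟩
  exact lower hf (ComputablePred.sigma (p_eq (hc.comp (c_fst c_id)) (c_snd c_id)))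

theorem dim_two {K : ℕ} (hK : 1 ≤ K) : compDim (As (pK K) false) = 2 := by
  let φ : Bool → Quotient (copySetoid (As (pK K) false)) := fun b =>
    Quotient.mk _ ⟨As (pK K) b, copy_as hK b⟩
  have hφ : Function.Bijective φ := by
    constructor
    · intro b c h
      have h1 : CompIso (As (pK K) b) (As (pK K) c) := Quotient.exact h
      cases b <;> cases c
      · rfl
      · exact (not_compIso K h1).elim
      · exact (not_compIso K h1.symm).elim
      · rfl
    · intro q
      induction q using Quotient.inductionOn with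
      | h B =>
        obtain ⟨b, hb⟩ := copies (p_TT K) c_prn (th_TT K) B.2
        exact ⟨b, Quotient.sound hb⟩
  unfold compDim
  rw [← Cardinal.mk_congr (Equiv.ofBijective φ hφ)]
  exact Cardinal.mk_bool

theorem delta_auto {K : ℕ} (hK : 1 ≤ K) : DeltaAutostable (K + 2) (As (pK K) false) := by
  intro B C hB hC
  obtain ⟨b, h, hh, hhc⟩ := copies (p_TT K) c_prn (th_TT K) hB
  obtain ⟨c, k, hk, hkc⟩ := copies (p_TT K) c_prn (th_TT K) hC
  have hm : ∃ m : ℕ ≃ ℕ, IsIso (As (pK K) b) (As (pK K) c) m ∧ DeltaFun (K + 2) m := by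
    by_cases hbc : c = b
    · subst hbc
      exact ⟨Equiv.refl ℕ, fun _ _ _ => Iff.rfl,
        (del_iff _ _).2 (Delta0.of_comp (p_eq (c_fst c_id) (c_snd c_id)))⟩
    · have : c = !b := by cases b <;> cases c <;> simp_all
      subst this
      exact flip_iso hK b
  obtain ⟨m, hm1, hm2⟩ := hm
  refine ⟨(h.symm.trans m).trans k, (hh.symm.trans hm1).trans hk, ?_⟩
  have h1 : Delta0 (K + 2) fun p : ℕ × ℕ => m (h.symm p.1) = k.symm p.2 :=
    Delta0.comp ((del_iff _ _).1 hm2) (f := fun p : ℕ × ℕ => (h.symm p.1, k.symm p.2))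
      (c_pair ((computable_symm hhc).comp (c_fst c_id))
        ((computable_symm hkc).comp (c_snd c_id)))
  refine (del_iff _ _).2 (Delta0.of_iff h1 fun p => ?_)
  show k (m (h.symm p.1)) = p.2 ↔ _
  exact (Equiv.eq_symm_apply k).symm

theorem not_delta_auto {K : ℕ} (hK : 1 ≤ K) :
    ¬ DeltaAutostable (K + 1) (As (pK K) false) := by
  intro h
  obtain ⟨f, hf, hd⟩ := h _ _ (copy_as hK false) (copy_as hK true)
  exact lower hf ((del_iff _ _).1 hd).1

/-- For every `n ≥ 2` there is a computable structure of computable dimension two which is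
`Δ⁰_{n+1}`-autostable but not `Δ⁰_n`-autostable. -/
theorem main (n : ℕ) (hn : 2 ≤ n) : ∃ A : Str, IsComp A ∧ compDim A = 2 ∧
    DeltaAutostable (n + 1) A ∧ ¬ DeltaAutostable n A := by
  obtain ⟨K, rfl⟩ : ∃ K, n = K + 1 := ⟨n - 1, by omega⟩
  have hK : 1 ≤ K := by omega
  exact ⟨As (pK K) false, as_comp (c_pK K) false, dim_two hK, delta_auto hK,
    not_delta_auto hK⟩

end Pool.Agent.Helper941.Dim
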